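import Pool.Agent.Work.MP_d70a14_gt.A.FlowDet

/-! # Conservation of the angular momentum (M)

Let `p ∈ Wall`, `n` the inner normal, `ρ` the function.  Near `p` every frontier point `z` has `ρ z = 0` (limit of points of `V`, so `ρ z ≥ 0`; `z ∉ V` because `V` is open, so
`ρ z ≤ 0`).  `rot c b θ p ∈ frontier V`, near `p` for small `θ`: `ρ (rot c b θ p) = 0`; the derivative at `θ = 0` is
`⟪∇ρ p, -⟪b 1, p - c⟫ b 0 + ⟪b 0, p - c⟫ b 1⟫ = 0`, i.e. `ang c b (p, n) = 0`.
`ang c b (p, ·)` is linear, so `ang c b (p, mirror n v) = ang c b (p, v)`; and `ang c b (x + t v, v) = ang c b (x, v)`.  Induction on the flow. -/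

open MeasureTheory Set Metric Filter Topology
open scoped RealInnerProductSpace ContDiff ENNReal

noncomputable section

namespace Pool.Agent.Work.MP_d70a14_gt

private theorem rot_zero' (c : E) (b : OrthonormalBasis (Fin 3) ℝ E) (x : E) :
    rot c b 0 x = x := by
  have h := b.sum_repr' (x - c)
  rw [Fin.sum_univ_three] at h
  unfold rot
  rw [Real.cos_zero, Real.sin_zero, one_mul, one_mul, zero_mul, zero_mul, sub_zero, zero_add,
    add_assoc, add_assoc, ← add_assoc (⟪b 0, x - c⟫ • b 0), h, add_sub_cancel]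

private theorem rot_deriv (c : E) (b : OrthonormalBasis (Fin 3) ℝ E) (x : E) :
    HasDerivAt (fun θ : ℝ => rot c b θ x)
      (-(⟪b 1, x - c⟫) • b 0 + ⟪b 0, x - c⟫ • b 1) 0 := by
  have hc : HasDerivAt Real.cos (-Real.sin 0) 0 := Real.hasDerivAt_cos 0
  have hs : HasDerivAt Real.sin (Real.cos 0) 0 := Real.hasDerivAt_sin 0
  have h1 : HasDerivAt (fun θ : ℝ => Real.cos θ * ⟪b 0, x - c⟫ - Real.sin θ * ⟪b 1, x - c⟫)
      (-Real.sin 0 * ⟪b 0, x - c⟫ - Real.cos 0 * ⟪b 1, x - c⟫) 0 :=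
    (hc.mul_const _).sub (hs.mul_const _)
  have h2 : HasDerivAt (fun θ : ℝ => Real.sin θ * ⟪b 0, x - c⟫ + Real.cos θ * ⟪b 1, x - c⟫)
      (Real.cos 0 * ⟪b 0, x - c⟫ + -Real.sin 0 * ⟪b 1, x - c⟫) 0 :=
    (hs.mul_const _).add (hc.mul_const _)
  have h3 := (((h1.smul_const (b 0)).const_add c).add (h2.smul_const (b 1))).add_const
    (⟪b 2, x - c⟫ • b 2)
  rw [Real.cos_zero, Real.sin_zero, neg_zero, zero_mul, zero_mul, one_mul, one_mul, zero_sub,
    add_zero] at h3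
  exact h3

private theorem frontier_zero {V : Set E} (hV : IsOpen V) {p : E} {ρ : E → ℝ}
    (hρ : ContDiffAt ℝ 2 ρ p) (h1 : ∀ᶠ x in 𝓝 p, (x ∈ V ↔ 0 < ρ x)) :
    ∀ᶠ z in 𝓝 p, z ∈ frontier V → ρ z = 0 := by
  have h2 : ∀ᶠ z in 𝓝 p, ContDiffAt ℝ 2 ρ z := hρ.eventually (by simp)
  filter_upwards [h2, h1.eventually_nhds] with z hz1 hz2 hz
  rw [hV.frontier_eq] at hz
  have h3 : ¬ 0 < ρ z := fun h => hz.2 (hz2.self_of_nhds.2 h)
  have h4 : ¬ ρ z < 0 := by
    intro h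
    have h5 : ∀ᶠ x in 𝓝 z, ρ x < 0 := hz1.continuousAt.eventually (gt_mem_nhds h)
    have h6 : ∃ᶠ x in 𝓝 z, x ∈ V := mem_closure_iff_frequently.1 hz.1
    obtain ⟨x, hx1, hx2, hx3⟩ := (h6.and_eventually (h5.and hz2)).exists
    exact absurd (hx3.1 hx1) (not_lt.2 hx2.le)
  exact le_antisymm (not_lt.1 h3) (not_lt.1 h4)

private theorem ang_normal {V : Set E} (hV : IsOpen V) {c : E}
    {b : OrthonormalBasis (Fin 3) ℝ E}
    (hrot : ∀ θ : ℝ, ∀ x ∈ frontier V, rot c b θ x ∈ frontier V) {p n : E}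
    (hp : p ∈ frontier V) (hn : InnerNormal V p n) : ang c b (p, n) = 0 := by
  obtain ⟨-, ρ, hρ, h0, ⟨a, ha, hg⟩, h1⟩ := hn
  have hd := rot_deriv c b p
  have hz := rot_zero' c b p
  have h2 : HasGradientAt ρ (a • n) p := by
    rw [← hg]
    exact (hρ.differentiableAt (by norm_num)).hasGradientAt
  have h3 : HasFDerivAt ρ ((InnerProductSpace.toDual ℝ E) (a • n)) (rot c b 0 p) := by
    rw [hz]
    exact h2.hasFDerivAt
  have h4 := h3.comp_hasDerivAt (0 : ℝ) hd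
  have h5 : Tendsto (fun θ : ℝ => rot c b θ p) (𝓝 0) (𝓝 p) := by
    have h := hd.continuousAt.tendsto
    rw [hz] at h
    exact h
  have h6 : (ρ ∘ fun θ : ℝ => rot c b θ p) =ᶠ[𝓝 0] fun _ => (0 : ℝ) := by
    filter_upwards [h5.eventually (frontier_zero hV hρ h1)] with θ hθ
    exact hθ (hrot θ p hp)
  have h7 : HasDerivAt (ρ ∘ fun θ : ℝ => rot c b θ p) 0 0 :=
    (hasDerivAt_const (0 : ℝ) (0 : ℝ)).congr_of_eventuallyEq h6
  have h8 := h4.unique h7
  rw [InnerProductSpace.toDual_apply_apply, real_inner_smul_left, inner_add_right,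
    real_inner_smul_right, real_inner_smul_right] at h8
  have h9 := (mul_eq_zero.1 h8).resolve_left ha.ne'
  unfold ang
  rw [real_inner_comm (b 0) n, real_inner_comm (b 1) n] at h9
  simp only
  linarith [h9]

private theorem ang_mirror {c : E} {b : OrthonormalBasis (Fin 3) ℝ E} {p n v : E}
    (h : ang c b (p, n) = 0) : ang c b (p, mirror n v) = ang c b (p, v) := by
  unfold ang at h ⊢
  unfold mirror
  simp only at h ⊢
  have h0 : ∀ i, ⟪b i, v - (2 * ⟪v, n⟫) • n⟫ = ⟪b i, v⟫ - (2 * ⟪v, n⟫) * ⟪b i, n⟫ := by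
    intro i
    rw [inner_sub_right, real_inner_smul_right]
  rw [h0, h0]
  linear_combination (-(2 * ⟪v, n⟫)) * h

private theorem ang_line {c : E} {b : OrthonormalBasis (Fin 3) ℝ E} {x v : E} {t : ℝ} :
    ang c b (x + t • v, v) = ang c b (x, v) := by
  unfold ang
  simp only
  have h1 : x + t • v - c = (x - c) + t • v := by module
  rw [h1, inner_add_right, inner_add_right, real_inner_smul_right, real_inner_smul_right]
  ring

private theorem ang_aux {V W : Set E} (hV : IsOpen V) (hW : W ⊆ frontier V)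
    {c : E} {b : OrthonormalBasis (Fin 3) ℝ E}
    (hrot : ∀ θ : ℝ, ∀ x ∈ frontier V, rot c b θ x ∈ frontier V) {k : ℕ} {x v y w : E} {t : ℝ}
    (h : Flow V W k x v t y w) : ang c b (y, w) = ang c b (x, v) := by
  induction h with
  | free _ _ => exact ang_line
  | refl _ _ hWp hn _ _ ih =>
    rw [ih, ang_mirror (ang_normal hV hrot (hW hWp) hn), ang_line]

theorem ang_conserved {V : Set E} {K : Bool → Set P2} {ι : Bool → P2 →ᵃⁱ[ℝ] E} (hV : IsOpen V)
    {c : E} {b : OrthonormalBasis (Fin 3) ℝ E}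
    (hrot : ∀ θ : ℝ, ∀ x ∈ frontier V, rot c b θ x ∈ frontier V) {k : ℕ} {x v y w : E} {t : ℝ}
    (h : Flow V (Wall V K ι) k x v t y w) : ang c b (y, w) = ang c b (x, v) :=
  ang_aux hV sdiff_subset hrot h

end Pool.Agent.Work.MP_d70a14_gt

end
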