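import Pool.Agent.Work.MP_d70a14_gt.Defs

/-! # The inner integral (M)

`ang c b (x, u) = ⟪a, u⟫` with `a = ⟪b 0, x - c⟫ b 1 - ⟪b 1, x - c⟫ b 0`, `‖a‖^2 = rad2 c b x`, `⟪a, b 2⟫ = 0`.  For `s = √(rad2 c b x)` there is a linear isometry `L` of `E` with
`L (b 2) = b 2`, `L a = s b 0` (rotation about `b 2`: orthonormal bases); it preserves volume and ball: the integral is
`s^(2k) ∫_{‖u‖<1} |⟪u, b 2⟫| ⟪b 0, u⟫^(2k)`.  `C` = the last integral: finite (bounded integrand) and positive (the integrand is positive a.e.). -/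

open MeasureTheory Set Metric Filter Topology
open scoped RealInnerProductSpace ContDiff ENNReal

noncomputable section

namespace Pool.Agent.Work.MP_d70a14_gt

private def inV (b : OrthonormalBasis (Fin 3) ℝ E) (α β : ℝ) : Fin 3 → E :=
  ![α • b 1 - β • b 0, (-α) • b 0 - β • b 1, b 2]

private theorem in_on (b : OrthonormalBasis (Fin 3) ℝ E) {α β : ℝ} (h : α ^ 2 + β ^ 2 = 1) :
    Orthonormal ℝ (inV b α β) := by
  have hb := orthonormal_iff_ite.1 b.orthonormal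
  have h00 : ⟪b 0, b 0⟫ = (1 : ℝ) := by rw [hb]; simp
  have h11 : ⟪b 1, b 1⟫ = (1 : ℝ) := by rw [hb]; simp
  have h22 : ⟪b 2, b 2⟫ = (1 : ℝ) := by rw [hb]; simp
  have h01 : ⟪b 0, b 1⟫ = (0 : ℝ) := by rw [hb]; simp
  have h10 : ⟪b 1, b 0⟫ = (0 : ℝ) := by rw [hb]; simp
  have h02 : ⟪b 0, b 2⟫ = (0 : ℝ) := by rw [hb]; simp
  have h20 : ⟪b 2, b 0⟫ = (0 : ℝ) := by rw [hb]; simp
  have h12 : ⟪b 1, b 2⟫ = (0 : ℝ) := by rw [hb]; simp
  have h21 : ⟪b 2, b 1⟫ = (0 : ℝ) := by rw [hb]; simp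
  rw [orthonormal_iff_ite]
  intro i j
  fin_cases i <;> fin_cases j <;>
    simp only [inV, Matrix.cons_val_zero, Matrix.cons_val_one, Matrix.cons_val, Fin.zero_eta, Fin.mk_one,
      Fin.reduceFinMk, inner_sub_left, inner_sub_right, inner_smul_left, inner_smul_right, conj_trivial, h00, h11,
      h22, h01, h10, h02, h20, h12, h21, Fin.isValue] <;> (try simp) <;> nlinarith [h]

private theorem in_iso (b : OrthonormalBasis (Fin 3) ℝ E) {α β : ℝ} (h : α ^ 2 + β ^ 2 = 1) :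
    ∃ L : E ≃ₗᵢ[ℝ] E, ∀ u, ⟪b 0, L u⟫ = α * ⟪b 1, u⟫ - β * ⟪b 0, u⟫ ∧ ⟪b 2, L u⟫ = ⟪b 2, u⟫ := by
  have hcard : Fintype.card (Fin 3) = Module.finrank ℝ E := by simp [E]
  let B : OrthonormalBasis (Fin 3) ℝ E :=
    OrthonormalBasis.mk (in_on b h) (by
      rw [(in_on b h).linearIndependent.span_eq_top_of_card_eq_finrank' hcard])
  have hB : ∀ i, B i = inV b α β i := fun i => by simp [B]
  refine ⟨B.equiv b (Equiv.refl _), fun u => ?_⟩
  have key : ∀ i, ⟪b i, (B.equiv b (Equiv.refl _)) u⟫ = (⟪B i, u⟫ : ℝ) := by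
    intro i
    have h1 : b i = (B.equiv b (Equiv.refl _)) (B i) := by
      rw [OrthonormalBasis.equiv_apply_basis]
      rfl
    rw [h1, LinearIsometryEquiv.inner_map_map]
  rw [key 0, key 2, hB 0, hB 2]
  constructor
  · simp [inV, inner_sub_left, inner_smul_left]
  · simp [inV]

private def inF (b : OrthonormalBasis (Fin 3) ℝ E) (k : ℕ) (u : E) : ℝ≥0∞ :=
  ENNReal.ofReal |(⟪b 2, u⟫ : ℝ)| * ENNReal.ofReal ((⟪b 0, u⟫ : ℝ) ^ (2 * k))

private theorem in_meas (b : OrthonormalBasis (Fin 3) ℝ E) (k : ℕ) : Measurable (inF b k) := by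
  unfold inF
  have h1 : Continuous fun u : E => |(⟪b 2, u⟫ : ℝ)| := (continuous_const.inner continuous_id).abs
  have h2 : Continuous fun u : E => (⟪b 0, u⟫ : ℝ) ^ (2 * k) := (continuous_const.inner continuous_id).pow _
  exact (h1.measurable.ennreal_ofReal).mul h2.measurable.ennreal_ofReal

private theorem in_top (b : OrthonormalBasis (Fin 3) ℝ E) (k : ℕ) :
    ∫⁻ u in ball (0 : E) 1, inF b k u ≠ ⊤ := by
  have h1 : ∫⁻ u in ball (0 : E) 1, inF b k u ≤ ∫⁻ _ in ball (0 : E) 1, 1 := by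
    refine setLIntegral_mono' measurableSet_ball fun u hu => ?_
    rw [mem_ball_zero_iff] at hu
    have e : ∀ i, |(⟪b i, u⟫ : ℝ)| ≤ 1 := by
      intro i
      refine (abs_real_inner_le_norm _ _).trans ?_
      rw [b.norm_eq_one, one_mul]
      exact hu.le
    have h2 : (⟪b 0, u⟫ : ℝ) ^ (2 * k) ≤ 1 := by
      rw [pow_mul]
      refine pow_le_one₀ (sq_nonneg _) ?_
      rw [← sq_abs]
      exact pow_le_one₀ (abs_nonneg _) (e 0)
    unfold inF
    calc ENNReal.ofReal |(⟪b 2, u⟫ : ℝ)| * ENNReal.ofReal ((⟪b 0, u⟫ : ℝ) ^ (2 * k)) ≤ 1 * 1 := by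
          refine mul_le_mul' ?_ ?_
          · rw [ENNReal.ofReal_le_one]
            exact e 2
          · rw [ENNReal.ofReal_le_one]
            exact h2
      _ = 1 := one_mul 1
  rw [setLIntegral_one] at h1
  exact ne_top_of_le_ne_top measure_ball_lt_top.ne h1

private theorem in_ne (b : OrthonormalBasis (Fin 3) ℝ E) (k : ℕ) :
    ∫⁻ u in ball (0 : E) 1, inF b k u ≠ 0 := by
  intro h
  rw [lintegral_eq_zero_iff (in_meas b k)] at h
  have h1 : ∀ᵐ u : E, u ∈ ball (0 : E) 1 → inF b k u = 0 :=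
    (ae_restrict_iff' measurableSet_ball).1 h
  rw [ae_iff] at h1
  have hb := orthonormal_iff_ite.1 b.orthonormal
  have hU : IsOpen (ball (0 : E) 1 ∩ ({u | 0 < (⟪b 2, u⟫ : ℝ)} ∩ {u | 0 < (⟪b 0, u⟫ : ℝ)})) := by
    refine isOpen_ball.inter (IsOpen.inter ?_ ?_)
    · exact isOpen_lt continuous_const (continuous_const.inner continuous_id)
    · exact isOpen_lt continuous_const (continuous_const.inner continuous_id)
  have hne : (ball (0 : E) 1 ∩ ({u | 0 < (⟪b 2, u⟫ : ℝ)} ∩ {u | 0 < (⟪b 0, u⟫ : ℝ)})).Nonempty := by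
    refine ⟨(1 / 3 : ℝ) • (b 0 + b 2), ?_, ?_, ?_⟩
    · rw [mem_ball_zero_iff, norm_smul]
      have h2 := norm_add_le (b 0) (b 2)
      rw [b.norm_eq_one, b.norm_eq_one] at h2
      have h3 : ‖(1 / 3 : ℝ)‖ = 1 / 3 := by norm_num
      rw [h3]
      linarith
    · show 0 < (⟪b 2, (1 / 3 : ℝ) • (b 0 + b 2)⟫ : ℝ)
      rw [inner_smul_right, inner_add_right, hb, hb]
      simp
    · show 0 < (⟪b 0, (1 / 3 : ℝ) • (b 0 + b 2)⟫ : ℝ)
      rw [inner_smul_right, inner_add_right, hb, hb]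
      simp
  have hpos := hU.measure_pos (volume : Measure E) hne
  refine hpos.ne' (measure_mono_null ?_ h1)
  rintro u ⟨hu1, hu2, hu3⟩
  show ¬(u ∈ ball (0 : E) 1 → inF b k u = 0)
  replace hu2 : 0 < (⟪b 2, u⟫ : ℝ) := hu2
  replace hu3 : 0 < (⟪b 0, u⟫ : ℝ) := hu3
  intro h4
  have h5 := h4 hu1
  unfold inF at h5
  rw [mul_eq_zero, ENNReal.ofReal_eq_zero, ENNReal.ofReal_eq_zero] at h5
  rcases h5 with h5 | h5
  · exact absurd h5 (not_le.2 (abs_pos.2 hu2.ne'))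
  · exact absurd h5 (not_le.2 (pow_pos hu3 _))

private theorem in_sub (L : E ≃ₗᵢ[ℝ] E) (F : E → ℝ≥0∞) :
    ∫⁻ u in ball (0 : E) 1, F (L u) = ∫⁻ u in ball (0 : E) 1, F u := by
  have h1 := (L.measurePreserving.setLIntegral_comp_preimage_emb
    L.toHomeomorph.toMeasurableEquiv.measurableEmbedding F (ball (0 : E) 1))
  have h2 : L ⁻¹' ball (0 : E) 1 = ball (0 : E) 1 := by
    ext u
    simp
  rw [h2] at h1
  exact h1

theorem inner_int (c : E) (b : OrthonormalBasis (Fin 3) ℝ E) (k : ℕ) :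
    ∃ C : ℝ≥0∞, C ≠ 0 ∧ C ≠ ⊤ ∧ ∀ x : E,
      ∫⁻ u in ball (0 : E) 1, ENNReal.ofReal |⟪u, b 2⟫| * ENNReal.ofReal (ang c b (x, u) ^ (2 * k)) =
        ENNReal.ofReal (rad2 c b x ^ k) * C := by
  refine ⟨∫⁻ u in ball (0 : E) 1, inF b k u, in_ne b k, in_top b k, fun x => ?_⟩
  have hr0 : 0 ≤ rad2 c b x := by unfold rad2; positivity
  rcases hr0.eq_or_lt with h0 | h0
  · have h1 : (⟪b 0, x - c⟫ : ℝ) = 0 ∧ (⟪b 1, x - c⟫ : ℝ) = 0 := by
      unfold rad2 at h0
      constructor <;> nlinarith [sq_nonneg (⟪b 0, x - c⟫ : ℝ), sq_nonneg (⟪b 1, x - c⟫ : ℝ)]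
    have h2 : ∀ u, ang c b (x, u) = 0 := by
      intro u
      unfold ang
      simp only
      rw [h1.1, h1.2]
      ring
    rcases Nat.eq_zero_or_pos k with rfl | hk
    · simp only [mul_zero, pow_zero, ENNReal.ofReal_one, mul_one, one_mul]
      refine lintegral_congr fun u => ?_
      unfold inF
      rw [real_inner_comm]
      simp
    · rw [← h0]
      have h3 : (0 : ℝ) ^ k = 0 := zero_pow (by omega)
      rw [h3, ENNReal.ofReal_zero, zero_mul]
      rw [show (0 : ℝ≥0∞) = ∫⁻ _ in ball (0 : E) 1, 0 by simp]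
      refine lintegral_congr fun u => ?_
      rw [h2 u, zero_pow (by omega), ENNReal.ofReal_zero, mul_zero]
  · set s := Real.sqrt (rad2 c b x) with hs
    have hs0 : 0 < s := Real.sqrt_pos.2 h0
    have hs2 : s ^ 2 = rad2 c b x := Real.sq_sqrt hr0
    obtain ⟨L, hL⟩ := in_iso b (α := ⟪b 0, x - c⟫ / s) (β := ⟪b 1, x - c⟫ / s) (by
      rw [div_pow, div_pow, ← add_div, hs2]
      exact div_self h0.ne')
    have hm : Measurable fun u => inF b k (L u) := (in_meas b k).comp L.continuous.measurable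
    rw [← in_sub L (inF b k), ← lintegral_const_mul _ hm]
    refine lintegral_congr fun u => ?_
    obtain ⟨h1, h2⟩ := hL u
    unfold inF
    rw [h1, h2]
    have h3 : ang c b (x, u) = s * (⟪b 0, x - c⟫ / s * ⟪b 1, u⟫ - ⟪b 1, x - c⟫ / s * ⟪b 0, u⟫) := by
      unfold ang
      field_simp
    rw [h3, mul_pow, pow_mul s, hs2, ENNReal.ofReal_mul (pow_nonneg hr0 _), real_inner_comm u (b 2)]
    ring

end Pool.Agent.Work.MP_d70a14_gt

end
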