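import Pool.Agent.Work.MP_d70a14_gt.Defs

/-! # Determinacy of the moments on a compact interval (M)

Both measures are concentrated on the compact set `Icc 0 R`.  All polynomials have the same integrals; by the Weierstrass theorem
(`polynomialFunctions.topologicalClosure`, `exists_polynomial_near_of_continuousOn`) so do all continuous functions on `Icc 0 R`, hence all bounded continuous functions on
`ℝ`: `ext_of_forall_integral_eq_of_IsFiniteMeasure`. -/

open MeasureTheory Set Metric Filter Topology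
open scoped RealInnerProductSpace ContDiff ENNReal

noncomputable section

namespace Pool.Agent.Work.MP_d70a14_gt

private theorem mo_ae {μ : Measure ℝ} {R : ℝ} (hμ : μ (Icc 0 R)ᶜ = 0) : ∀ᵐ x ∂μ, x ∈ Icc 0 R := by
  rw [ae_iff]
  exact hμ

private theorem mo_int {μ : Measure ℝ} [IsFiniteMeasure μ] {R : ℝ} (hμ : μ (Icc 0 R)ᶜ = 0)
    {f : ℝ → ℝ} (hf : Continuous f) : Integrable f μ := by
  obtain ⟨C, hC⟩ := (isCompact_Icc (a := (0 : ℝ)) (b := R)).exists_bound_of_continuousOn hf.continuousOn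
  refine Integrable.of_bound hf.aestronglyMeasurable C ?_
  filter_upwards [mo_ae hμ] with x hx
  exact hC x hx

private theorem mo_pow {μ : Measure ℝ} [IsFiniteMeasure μ] {R : ℝ} (hμ : μ (Icc 0 R)ᶜ = 0) (k : ℕ) :
    ∫ x, x ^ k ∂μ = (∫⁻ x, ENNReal.ofReal (x ^ k) ∂μ).toReal := by
  refine integral_eq_lintegral_of_nonneg_ae ?_ (continuous_pow k).aestronglyMeasurable
  filter_upwards [mo_ae hμ] with x hx
  exact pow_nonneg hx.1 k

private theorem mo_poly {μ ν : Measure ℝ} [IsFiniteMeasure μ] [IsFiniteMeasure ν] {R : ℝ}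
    (hμ : μ (Icc 0 R)ᶜ = 0) (hν : ν (Icc 0 R)ᶜ = 0)
    (h : ∀ k : ℕ, ∫⁻ x, ENNReal.ofReal (x ^ k) ∂μ = ∫⁻ x, ENNReal.ofReal (x ^ k) ∂ν)
    (p : Polynomial ℝ) : ∫ x, p.eval x ∂μ = ∫ x, p.eval x ∂ν := by
  have h1 : ∀ (m : Measure ℝ) [IsFiniteMeasure m], m (Icc 0 R)ᶜ = 0 →
      ∫ x, p.eval x ∂m = ∑ i ∈ Finset.range (p.natDegree + 1), p.coeff i * ∫ x, x ^ i ∂m := by
    intro m _ hm
    have h2 : (fun x => p.eval x) =
        fun x => ∑ i ∈ Finset.range (p.natDegree + 1), p.coeff i * x ^ i := by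
      funext x
      exact Polynomial.eval_eq_sum_range x
    rw [h2, integral_finsetSum]
    · refine Finset.sum_congr rfl fun i _ => ?_
      exact integral_const_mul _ _
    · intro i _
      exact (mo_int hm (continuous_pow i)).const_mul _
  rw [h1 μ hμ, h1 ν hν]
  refine Finset.sum_congr rfl fun i _ => ?_
  rw [mo_pow hμ, mo_pow hν, h i]

theorem moments_eq {μ ν : Measure ℝ} [IsFiniteMeasure μ] [IsFiniteMeasure ν] {R : ℝ}
    (hμ : μ (Icc 0 R)ᶜ = 0) (hν : ν (Icc 0 R)ᶜ = 0)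
    (h : ∀ k : ℕ, ∫⁻ x, ENNReal.ofReal (x ^ k) ∂μ = ∫⁻ x, ENNReal.ofReal (x ^ k) ∂ν) : μ = ν := by
  refine ext_of_forall_integral_eq_of_IsFiniteMeasure fun f => ?_
  have hf : Continuous fun x => f x := f.continuous
  by_contra hne
  set d := |∫ x, f x ∂μ - ∫ x, f x ∂ν| with hd
  have hd0 : 0 < d := abs_pos.2 (sub_ne_zero.2 hne)
  set M := μ.real univ + ν.real univ with hM
  have hM0 : 0 ≤ M := add_nonneg measureReal_nonneg measureReal_nonneg
  obtain ⟨p, hp⟩ := exists_polynomial_near_of_continuousOn 0 R (fun x => f x) hf.continuousOn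
    (d / (2 * (M + 1))) (by positivity)
  have key : ∀ (m : Measure ℝ) [IsFiniteMeasure m], m (Icc 0 R)ᶜ = 0 →
      |∫ x, p.eval x ∂m - ∫ x, f x ∂m| ≤ d / (2 * (M + 1)) * m.real univ := by
    intro m _ hm
    rw [← integral_sub (mo_int hm p.continuous) (mo_int hm hf)]
    have h3 := norm_integral_le_of_norm_le_const (μ := m) (f := fun x => p.eval x - f x)
      (C := d / (2 * (M + 1))) (by
        filter_upwards [mo_ae hm] with x hx
        exact (hp x hx).le)
    exact h3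
  have h1 := key μ hμ
  have h2 := key ν hν
  have h3 := mo_poly hμ hν h p
  rw [h3] at h1
  have h4 : d ≤ d / (2 * (M + 1)) * M := by
    calc d = |(∫ x, p.eval x ∂ν - ∫ x, f x ∂ν) - (∫ x, p.eval x ∂ν - ∫ x, f x ∂μ)| := by
          rw [hd]
          congr 1
          ring
      _ ≤ |∫ x, p.eval x ∂ν - ∫ x, f x ∂ν| + |∫ x, p.eval x ∂ν - ∫ x, f x ∂μ| := abs_sub _ _
      _ ≤ d / (2 * (M + 1)) * ν.real univ + d / (2 * (M + 1)) * μ.real univ := add_le_add h2 h1
      _ = d / (2 * (M + 1)) * M := by rw [hM]; ring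
  have h5 : d / (2 * (M + 1)) * M < d := by
    rw [div_mul_eq_mul_div, div_lt_iff₀ (by positivity)]
    nlinarith
  exact absurd h4 (not_le.2 h5)

end Pool.Agent.Work.MP_d70a14_gt

end
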