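import Pool.Agent.Work.MP_d70a14_gt.C.FluxI
import Pool.Agent.Work.MP_d70a14_gt.S.Conserve
import Pool.Agent.Work.MP_d70a14_gt.S.Inner
import Pool.Agent.Work.MP_d70a14_gt.S.Moments

/-! # The radial distributions of the ends agree (M)

`hrot` for the frontier; `b 2` is a unit normal of both planes.  For `k : ℕ` apply `fluxI` with `m i = b 2` and
`I (x, v) = indicator (‖v‖ < 1) (ofReal (ang c b (x, v) ^ (2 k)))`: it is conserved (`ang_conserved`, `Flow.norm`) and even in `v`.  By Tonelli and `inner_int`:
`∫⁻ y in interior (K i), ofReal (rad2 c b (ι i y) ^ k) * C` is the same for both `i`; divide by `C`.  Let `μ i` be the image of the restriction of the volume to `interior (K i)`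
under `y ↦ rad2 c b (ι i y)`: finite measures concentrated on a compact interval (`K i` compact); `moments_eq`; `Measure.map_apply`. -/

open MeasureTheory Set Metric Filter Topology
open scoped RealInnerProductSpace ContDiff ENNReal

noncomputable section

namespace Pool.Agent.Work.MP_d70a14_gt

private theorem di_cont_ang (c : E) (b : OrthonormalBasis (Fin 3) ℝ E) : Continuous (ang c b) := by
  unfold ang
  fun_prop

private theorem di_cont_rad (ι : Bool → P2 →ᵃⁱ[ℝ] E) (i : Bool) (c : E)
    (b : OrthonormalBasis (Fin 3) ℝ E) : Continuous fun y => rad2 c b (ι i y) := by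
  have : Continuous (ι i) := (ι i).continuous
  unfold rad2
  fun_prop

private theorem di_meas (c : E) (b : OrthonormalBasis (Fin 3) ℝ E) (k : ℕ) :
    Measurable fun q : E × E => ENNReal.ofReal (ang c b q ^ (2 * k)) :=
  ENNReal.measurable_ofReal.comp ((di_cont_ang c b).measurable.pow_const _)

private theorem di_side {K : Bool → Set P2} (ι : Bool → P2 →ᵃⁱ[ℝ] E) (i : Bool) {c : E}
    {b : OrthonormalBasis (Fin 3) ℝ E} (k : ℕ) {C : ℝ≥0∞}
    (hC : ∀ x : E,
      ∫⁻ u in ball (0 : E) 1, ENNReal.ofReal |⟪u, b 2⟫| * ENNReal.ofReal (ang c b (x, u) ^ (2 * k)) =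
        ENNReal.ofReal (rad2 c b x ^ k) * C) :
    ∫⁻ u : E, ENNReal.ofReal |⟪u, b 2⟫| * ∫⁻ y in interior (K i),
        ({q : E × E | ‖q.2‖ < 1}.indicator fun q => ENNReal.ofReal (ang c b q ^ (2 * k))) (ι i y, u) =
      (∫⁻ y in interior (K i), ENNReal.ofReal (rad2 c b (ι i y) ^ k)) * C := by
  have hball : MeasurableSet (ball (0 : E) 1) := isOpen_ball.measurableSet
  have hci : Continuous (ι i) := (ι i).continuous
  have hm2 : Measurable fun z : E × P2 => ENNReal.ofReal (ang c b (ι i z.2, z.1) ^ (2 * k)) := by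
    have h := (di_cont_ang c b).comp ((hci.comp continuous_snd).prodMk continuous_fst)
    exact ENNReal.measurable_ofReal.comp (h.measurable.pow_const _)
  have hmw : Measurable fun u : E => ENNReal.ofReal |⟪u, b 2⟫| := by
    apply ENNReal.measurable_ofReal.comp
    apply Continuous.measurable
    fun_prop
  have h1 : ∀ u : E, ENNReal.ofReal |⟪u, b 2⟫| * ∫⁻ y in interior (K i),
        ({q : E × E | ‖q.2‖ < 1}.indicator fun q => ENNReal.ofReal (ang c b q ^ (2 * k))) (ι i y, u) =
      (ball (0 : E) 1).indicator (fun u => ∫⁻ y in interior (K i), ENNReal.ofReal |⟪u, b 2⟫| *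
        ENNReal.ofReal (ang c b (ι i y, u) ^ (2 * k))) u := by
    intro u
    by_cases hu : u ∈ ball (0 : E) 1
    · rw [indicator_of_mem hu, ← lintegral_const_mul]
      · refine lintegral_congr fun y => ?_
        rw [indicator_of_mem]
        rw [mem_ball_zero_iff] at hu
        exact hu
      · have hs : MeasurableSet {q : E × E | ‖q.2‖ < 1} := by
          apply IsOpen.measurableSet
          exact isOpen_lt (by fun_prop) continuous_const
        have h3 := (di_meas c b k).indicator hs
        exact h3.comp (hci.measurable.prodMk measurable_const)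
    · rw [indicator_of_notMem hu]
      have h3 : ∀ y : P2, ({q : E × E | ‖q.2‖ < 1}.indicator fun q =>
          ENNReal.ofReal (ang c b q ^ (2 * k))) (ι i y, u) = 0 := by
        intro y
        rw [indicator_of_notMem]
        rw [mem_ball_zero_iff] at hu
        exact hu
      simp only [h3]
      rw [lintegral_zero, mul_zero]
  rw [lintegral_congr h1, lintegral_indicator hball]
  have hswap : ∫⁻ u in ball (0 : E) 1, ∫⁻ y in interior (K i), ENNReal.ofReal |⟪u, b 2⟫| *
        ENNReal.ofReal (ang c b (ι i y, u) ^ (2 * k)) =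
      ∫⁻ y in interior (K i), ∫⁻ u in ball (0 : E) 1, ENNReal.ofReal |⟪u, b 2⟫| *
        ENNReal.ofReal (ang c b (ι i y, u) ^ (2 * k)) := by
    apply lintegral_lintegral_swap
    apply Measurable.aemeasurable
    exact (hmw.comp measurable_fst).mul hm2
  rw [hswap, lintegral_congr fun y => hC (ι i y), lintegral_mul_const]
  have h4 := (di_cont_rad ι i c b).measurable
  exact ENNReal.measurable_ofReal.comp (h4.pow_const _)

theorem radial_dist {V : Set E} {K : Bool → Set P2} {ι : Bool → P2 →ᵃⁱ[ℝ] E}
    (ho : OpticalFiber V K ι) {c : E} {b : OrthonormalBasis (Fin 3) ℝ E}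
    (hperp : ∀ i y z, ⟪ι i y - ι i z, b 2⟫ = 0)
    (hrot : ∀ θ : ℝ, ∀ x ∈ frontier V, rot c b θ x ∈ frontier V) {B : Set ℝ}
    (hB : MeasurableSet B) :
    volume {y | y ∈ interior (K false) ∧ rad2 c b (ι false y) ∈ B} =
      volume {y | y ∈ interior (K true) ∧ rad2 c b (ι true y) ∈ B} := by
  have hb2 : ‖b 2‖ = 1 := b.orthonormal.1 2
  have hmom : ∀ k : ℕ, ∫⁻ y in interior (K false), ENNReal.ofReal (rad2 c b (ι false y) ^ k) =
      ∫⁻ y in interior (K true), ENNReal.ofReal (rad2 c b (ι true y) ^ k) := by
    intro k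
    obtain ⟨C, hC0, hCt, hC⟩ := inner_int c b k
    have hI : Measurable ({q : E × E | ‖q.2‖ < 1}.indicator fun q =>
        ENNReal.ofReal (ang c b q ^ (2 * k))) := by
      refine (di_meas c b k).indicator ?_
      apply IsOpen.measurableSet
      exact isOpen_lt (by fun_prop) continuous_const
    have h1 := fluxI ho hI ?_ ?_ (m := fun _ => b 2) (fun _ => hb2) hperp
    · rw [di_side ι false k hC, di_side ι true k hC] at h1
      exact (ENNReal.mul_left_inj hC0 hCt).mp h1
    · intro j x v t y w hF
      have h2 := ang_conserved ho.isOpen hrot hF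
      have h3 := hF.norm
      by_cases hv : ‖v‖ < 1
      · rw [indicator_of_mem, indicator_of_mem, h2]
        · exact hv
        · show ‖w‖ < 1
          rw [h3]
          exact hv
      · rw [indicator_of_notMem, indicator_of_notMem]
        · exact hv
        · show ¬‖w‖ < 1
          rw [h3]
          exact hv
    · intro x v
      have h2 : ang c b (x, -v) = -ang c b (x, v) := by
        unfold ang
        show ⟪b 0, x - c⟫ * ⟪b 1, -v⟫ - ⟪b 1, x - c⟫ * ⟪b 0, -v⟫ =
          -(⟪b 0, x - c⟫ * ⟪b 1, v⟫ - ⟪b 1, x - c⟫ * ⟪b 0, v⟫)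
        rw [inner_neg_right, inner_neg_right]
        ring
      have h3 : ang c b (x, -v) ^ (2 * k) = ang c b (x, v) ^ (2 * k) := by
        rw [h2, pow_mul, pow_mul, neg_sq]
      by_cases hv : ‖v‖ < 1
      · rw [indicator_of_mem, indicator_of_mem, h3]
        · exact hv
        · show ‖-v‖ < 1
          rw [norm_neg]
          exact hv
      · rw [indicator_of_notMem, indicator_of_notMem]
        · exact hv
        · show ¬‖-v‖ < 1
          rw [norm_neg]
          exact hv
  have hcr : ∀ i, Continuous fun y => rad2 c b (ι i y) := fun i => di_cont_rad ι i c b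
  have hnn : ∀ i y, 0 ≤ rad2 c b (ι i y) := by
    intro i y
    unfold rad2
    positivity
  obtain ⟨R, hR⟩ : ∃ R : ℝ, ∀ i, ∀ y ∈ K i, rad2 c b (ι i y) ≤ R := by
    have h1 : ∀ i, ∃ R : ℝ, ∀ y ∈ K i, rad2 c b (ι i y) ≤ R := by
      intro i
      obtain ⟨R, hR⟩ := (ho.compact i).exists_bound_of_continuousOn (hcr i).continuousOn
      exact ⟨R, fun y hy => (le_abs_self _).trans (hR y hy)⟩
    choose R hR using h1
    refine ⟨max (R false) (R true), fun i y hy => (hR i y hy).trans ?_⟩
    cases i
    · exact le_max_left _ _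
    · exact le_max_right _ _
  obtain ⟨μ, hμ⟩ : ∃ μ : Bool → Measure ℝ, ∀ i, μ i =
      Measure.map (fun y => rad2 c b (ι i y)) (volume.restrict (interior (K i))) :=
    ⟨_, fun i => rfl⟩
  have hfin : ∀ i, IsFiniteMeasure (μ i) := by
    intro i
    have h1 : IsFiniteMeasure (volume.restrict (interior (K i))) := by
      refine ⟨?_⟩
      rw [Measure.restrict_apply_univ]
      exact (measure_mono interior_subset).trans_lt (ho.compact i).measure_lt_top
    rw [hμ i]
    infer_instance
  have hconc : ∀ i, μ i (Icc 0 R)ᶜ = 0 := by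
    intro i
    rw [hμ i, Measure.map_apply (hcr i).measurable measurableSet_Icc.compl,
      Measure.restrict_apply ((hcr i).measurable measurableSet_Icc.compl)]
    have h1 : (fun y => rad2 c b (ι i y)) ⁻¹' (Icc 0 R)ᶜ ∩ interior (K i) = ∅ := by
      rw [Set.eq_empty_iff_forall_notMem]
      rintro y ⟨h1, h2⟩
      exact h1 ⟨hnn i y, hR i y (interior_subset h2)⟩
    rw [h1, measure_empty]
  have hμm : ∀ i (k : ℕ), ∫⁻ x, ENNReal.ofReal (x ^ k) ∂(μ i) =
      ∫⁻ y in interior (K i), ENNReal.ofReal (rad2 c b (ι i y) ^ k) := by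
    intro i k
    rw [hμ i, lintegral_map _ (hcr i).measurable]
    exact ENNReal.measurable_ofReal.comp (measurable_id.pow_const _)
  have hf := hfin false
  have ht := hfin true
  have heq : μ false = μ true := by
    refine moments_eq (hconc false) (hconc true) fun k => ?_
    rw [hμm, hμm, hmom]
  have hval : ∀ i, μ i B = volume {y | y ∈ interior (K i) ∧ rad2 c b (ι i y) ∈ B} := by
    intro i
    rw [hμ i, Measure.map_apply (hcr i).measurable hB,
      Measure.restrict_apply ((hcr i).measurable hB)]
    congr 1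
    ext y
    exact and_comm
  rw [← hval, ← hval, heq]

end Pool.Agent.Work.MP_d70a14_gt

end
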