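import Pool.Agent.Work.MP_d70a14_gt.Defs
import Pool.Agent.Work.MP_d70a14_gt.A.Normal

/-! # The plane of an invariant figure is orthogonal to the axis (M)

Let `m` be the unit normal of the plane of `a` (`planeNormal`), `y₀ ∈ interior K`, `A` the linear part of `a` (range `= {m}^⊥`), and `R θ x = rot c b θ x - rot c b θ 0`-linear part of the
rotation: `R θ d = (cos θ d₀ - sin θ d₁) b 0 + (sin θ d₀ + cos θ d₁) b 1 + d₂ b 2`, `d_i = ⟪b i, d⟫`.  For small `z`: `rot c b θ (a (y₀ + z))` and `rot c b θ (a y₀)` are in the plane, so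
`⟪R θ (A z), m⟫ = 0` for all small `z`, hence for all `z` (linear), i.e. `⟪d, R (-θ) m⟫ = 0` for all `d` with `⟪d, m⟫ = 0`: `R (-θ) m = ± m`.  Take `θ = π/2`:
if `m = m₀ b 0 + m₁ b 1 + m₂ b 2` then `R (-θ) m = (m₁, -m₀, m₂)` in coordinates; `= ± (m₀, m₁, m₂)` forces `m₀ = m₁ = 0` (for `+`: `m₁ = m₀`, `-m₀ = m₁`; for `-`:
`m₁ = -m₀`, `-m₀ = -m₁`).  So `m = ± b 2`. -/

open MeasureTheory Set Metric Filter Topology
open scoped RealInnerProductSpace ContDiff ENNReal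

noncomputable section

namespace Pool.Agent.Work.MP_d70a14_gt

private theorem pp_dir (a : P2 →ᵃⁱ[ℝ] E) (y z : P2) : a y - a z = a.linearIsometry (y - z) := by
  have := a.map_vadd z (y - z)
  rw [vadd_eq_add, sub_add_cancel, vadd_eq_add] at this
  rw [this]
  abel

private theorem pp_rot (c : E) (b : OrthonormalBasis (Fin 3) ℝ E) (x x' m : E) :
    ⟪rot c b (Real.pi / 2) x - rot c b (Real.pi / 2) x', m⟫ =
      ⟪x - x', ⟪b 1, m⟫ • b 0 - ⟪b 0, m⟫ • b 1 + ⟪b 2, m⟫ • b 2⟫ := by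
  have h1 : rot c b (Real.pi / 2) x - rot c b (Real.pi / 2) x' =
      (-⟪b 1, x - x'⟫) • b 0 + ⟪b 0, x - x'⟫ • b 1 + ⟪b 2, x - x'⟫ • b 2 := by
    have e : ∀ i, ⟪b i, x - x'⟫ = ⟪b i, x - c⟫ - ⟪b i, x' - c⟫ := by
      intro i
      rw [← inner_sub_right]
      congr 1
      abel
    unfold rot
    rw [Real.cos_pi_div_two, Real.sin_pi_div_two, e 0, e 1, e 2]
    module
  rw [h1]
  generalize x - x' = d
  rw [inner_add_left, inner_add_left, real_inner_smul_left, real_inner_smul_left,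
    real_inner_smul_left, inner_add_right, inner_sub_right, real_inner_smul_right,
    real_inner_smul_right, real_inner_smul_right, real_inner_comm (b 0) d,
    real_inner_comm (b 1) d, real_inner_comm (b 2) d]
  ring

theorem plane_perp {K : Set P2} {a : P2 →ᵃⁱ[ℝ] E} {c : E} {b : OrthonormalBasis (Fin 3) ℝ E}
    (hK : (interior K).Nonempty) (hrot : ∀ θ : ℝ, ∀ x ∈ a '' K, rot c b θ x ∈ a '' K) :
    ∀ y z, ⟪a y - a z, b 2⟫ = 0 := by
  obtain ⟨m, hm, hpl⟩ := planeNormal a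
  obtain ⟨y₀, hy₀⟩ := hK
  obtain ⟨ε, hε, hball⟩ := Metric.isOpen_iff.mp isOpen_interior y₀ hy₀
  have hy0K : y₀ ∈ K := interior_subset hy₀
  have o00 : ⟪b 0, b 0⟫ = (1 : ℝ) := by
    rw [real_inner_self_eq_norm_sq, b.orthonormal.1]
    norm_num
  have o11 : ⟪b 1, b 1⟫ = (1 : ℝ) := by
    rw [real_inner_self_eq_norm_sq, b.orthonormal.1]
    norm_num
  have o22 : ⟪b 2, b 2⟫ = (1 : ℝ) := by
    rw [real_inner_self_eq_norm_sq, b.orthonormal.1]
    norm_num
  have o01 : ⟪b 0, b 1⟫ = (0 : ℝ) := b.orthonormal.2 (by decide)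
  have o02 : ⟪b 0, b 2⟫ = (0 : ℝ) := b.orthonormal.2 (by decide)
  have o12 : ⟪b 1, b 2⟫ = (0 : ℝ) := b.orthonormal.2 (by decide)
  have o10 : ⟪b 1, b 0⟫ = (0 : ℝ) := b.orthonormal.2 (by decide)
  have o20 : ⟪b 2, b 0⟫ = (0 : ℝ) := b.orthonormal.2 (by decide)
  have o21 : ⟪b 2, b 1⟫ = (0 : ℝ) := b.orthonormal.2 (by decide)
  obtain ⟨m', hm'⟩ : ∃ m' : E, m' = ⟪b 1, m⟫ • b 0 - ⟪b 0, m⟫ • b 1 + ⟪b 2, m⟫ • b 2 := ⟨_, rfl⟩
  have c0 : ⟪b 0, m'⟫ = ⟪b 1, m⟫ := by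
    rw [hm', inner_add_right, inner_sub_right, real_inner_smul_right, real_inner_smul_right,
      real_inner_smul_right, o00, o01, o02]
    ring
  have c1 : ⟪b 1, m'⟫ = -⟪b 0, m⟫ := by
    rw [hm', inner_add_right, inner_sub_right, real_inner_smul_right, real_inner_smul_right,
      real_inner_smul_right, o10, o11, o12]
    ring
  have c2 : ⟪b 2, m'⟫ = ⟪b 2, m⟫ := by
    rw [hm', inner_add_right, inner_sub_right, real_inner_smul_right, real_inner_smul_right,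
      real_inner_smul_right, o20, o21, o22]
    ring
  have pars : ∀ x : E, ⟪b 0, x⟫ ^ 2 + ⟪b 1, x⟫ ^ 2 + ⟪b 2, x⟫ ^ 2 = ‖x‖ ^ 2 := by
    intro x
    have h := b.sum_sq_norm_inner_right x
    rw [Fin.sum_univ_three] at h
    simpa using h
  have hn' : ‖m'‖ = 1 := by
    have h1 := pars m'
    have h2 := pars m
    rw [c0, c1, c2] at h1
    rw [hm] at h2
    have h3 : ‖m'‖ ^ 2 = 1 ^ 2 := by rw [← h1, ← h2]; ring
    exact (sq_eq_sq₀ (norm_nonneg _) zero_le_one).mp h3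
  have key : ∀ z, ⟪a z - a y₀, m'⟫ = 0 := by
    have hsmall : ∀ z ∈ Metric.ball y₀ ε, ⟪a z - a y₀, m'⟫ = 0 := by
      intro z hz
      have hzK : z ∈ K := interior_subset (hball hz)
      obtain ⟨u, -, hu⟩ := hrot (Real.pi / 2) (a z) ⟨z, hzK, rfl⟩
      obtain ⟨v, -, hv⟩ := hrot (Real.pi / 2) (a y₀) ⟨y₀, hy0K, rfl⟩
      rw [hm', ← pp_rot c b, ← hu, ← hv]
      exact hpl u v
    intro z
    obtain ⟨s, hs0, hs⟩ : ∃ s : ℝ, 0 < s ∧ s * ‖z - y₀‖ < ε := by
      refine ⟨ε / (2 * (‖z - y₀‖ + 1)), by positivity, ?_⟩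
      rw [div_mul_eq_mul_div, div_lt_iff₀ (by positivity)]
      have := norm_nonneg (z - y₀)
      nlinarith
    have h1 := hsmall (y₀ + s • (z - y₀)) (by
      rw [mem_ball_iff_norm, add_sub_cancel_left, norm_smul, Real.norm_eq_abs, abs_of_pos hs0]
      exact hs)
    rw [pp_dir, add_sub_cancel_left, map_smul, real_inner_smul_left] at h1
    rw [pp_dir]
    exact (mul_eq_zero.mp h1).resolve_left hs0.ne'
  have hz0 : ⟪b 0, m⟫ = 0 ∧ ⟪b 1, m⟫ = 0 := by
    rcases planeNormal_unique a hm hpl hn' key with h | h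
    · rw [h] at c0 c1
      constructor <;> linarith
    · rw [h, inner_neg_right] at c0 c1
      constructor <;> linarith
  have hexp : m = ⟪b 2, m⟫ • b 2 := by
    have h := b.sum_repr' m
    rw [Fin.sum_univ_three, hz0.1, hz0.2, zero_smul, zero_smul, zero_add, zero_add] at h
    exact h.symm
  intro y z
  have h1 := hpl y z
  rw [hexp, real_inner_smul_right] at h1
  rcases mul_eq_zero.mp h1 with h | h
  · exfalso
    rw [h, zero_smul] at hexp
    rw [hexp, norm_zero] at hm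
    exact zero_ne_one hm
  · exact h

end Pool.Agent.Work.MP_d70a14_gt

end
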