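import Pool.Agent.Work.MP_d70a14_gt.Defs

/-! # Rotationally invariant figures with the same radial distribution are congruent (M)

Let `F i = ι i '' K i`.  By `hperp` the height `⟪b 2, ι i y - c⟫ = h i` is constant on the plane `i`.  Two points `x, x'` with the same `rad2` and the same height are related
by a rotation: `x' = rot c b θ x`.  So with `S i = {rad2 c b x : x ∈ F i}` (compact): a point `ι i y` of the plane `i` with `rad2 ∈ S i` is in `F i` (and `y ∈ K i`).
The open set `{y ∈ interior (K false) : rad2 c b (ι false y) ∉ S true}` has by `hmeas` (for the open set `(S true)ᶜ`) the same volume as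
`{y ∈ interior (K true) : rad2 c b (ι true y) ∉ S true} = ∅`, so it is empty (an open null set); by closure (`hreg`, `S true` closed) `S false ⊆ S true`; symmetric:
`S false = S true`.  The translation `M x = x + (h true - h false) b 2` preserves `rad2` and maps the plane of the end `false` (all points of height `h false`: dimension) to the other one;
so `M '' F false = F true`. -/

open MeasureTheory Set Metric Filter Topology
open scoped RealInnerProductSpace ContDiff ENNReal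

noncomputable section

namespace Pool.Agent.Work.MP_d70a14_gt

private theorem ra_dir (a : P2 →ᵃⁱ[ℝ] E) (y z : P2) : a y - a z = a.linearIsometry (y - z) := by
  have := a.map_vadd z (y - z)
  rw [vadd_eq_add, sub_add_cancel, vadd_eq_add] at this
  rw [this]
  abel

private theorem ra_plane (a : P2 →ᵃⁱ[ℝ] E) {m : E} (hm : m ≠ 0)
    (hpl : ∀ y z, ⟪a y - a z, m⟫ = 0) {x : E} (hx : ⟪x - a 0, m⟫ = 0) : ∃ y, a y = x := by
  have h1 : Module.finrank ℝ (LinearMap.range a.linearIsometry.toLinearMap) = 2 := by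
    rw [LinearMap.finrank_range_of_inj a.linearIsometry.injective]
    simp
  have hf : Fact (Module.finrank ℝ E = 2 + 1) := ⟨by simp⟩
  have h2 : Module.finrank ℝ (ℝ ∙ m)ᗮ = 2 := Submodule.finrank_orthogonal_span_singleton hm
  have h3 : LinearMap.range a.linearIsometry.toLinearMap ≤ (ℝ ∙ m)ᗮ := by
    rintro _ ⟨w, rfl⟩
    rw [Submodule.mem_orthogonal_singleton_iff_inner_left]
    have h4 := hpl w 0
    rw [ra_dir, sub_zero] at h4
    exact h4
  have h5 := Submodule.eq_of_le_of_finrank_eq h3 (h1.trans h2.symm)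
  have h6 : x - a 0 ∈ LinearMap.range a.linearIsometry.toLinearMap := by
    rw [h5, Submodule.mem_orthogonal_singleton_iff_inner_left]
    exact hx
  obtain ⟨w, hw⟩ := h6
  refine ⟨w, ?_⟩
  have h7 := ra_dir a w 0
  rw [sub_zero] at h7
  have h8 : a w - a 0 = x - a 0 := h7.trans hw
  exact sub_left_injective h8

private theorem ra_expand (c : E) (b : OrthonormalBasis (Fin 3) ℝ E) (x : E) :
    x = c + ⟪b 0, x - c⟫ • b 0 + ⟪b 1, x - c⟫ • b 1 + ⟪b 2, x - c⟫ • b 2 := by
  have h := b.sum_repr' (x - c)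
  rw [Fin.sum_univ_three] at h
  have h1 : c + (x - c) = x := by abel
  nth_rewrite 1 [← h1]
  nth_rewrite 1 [← h]
  abel

private theorem ra_angle {p q : ℝ} (h : p ^ 2 + q ^ 2 = 1) : ∃ θ : ℝ, Real.cos θ = p ∧ Real.sin θ = q := by
  have hn : ‖(⟨p, q⟩ : ℂ)‖ = 1 := by
    rw [Complex.norm_def, Complex.normSq_mk]
    have : p * p + q * q = 1 := by rw [← h]; ring
    rw [this, Real.sqrt_one]
  refine ⟨Complex.arg ⟨p, q⟩, ?_, ?_⟩
  · have h1 := Complex.norm_mul_cos_arg (⟨p, q⟩ : ℂ)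
    rw [hn, one_mul] at h1
    exact h1
  · have h1 := Complex.norm_mul_sin_arg (⟨p, q⟩ : ℂ)
    rw [hn, one_mul] at h1
    exact h1

private theorem ra_rot {c : E} {b : OrthonormalBasis (Fin 3) ℝ E} {x x' : E}
    (h1 : rad2 c b x = rad2 c b x') (h2 : ⟪b 2, x - c⟫ = ⟪b 2, x' - c⟫) :
    ∃ θ, rot c b θ x = x' := by
  unfold rad2 at h1
  obtain ⟨p, hp⟩ : ∃ p : ℝ, p = ⟪b 0, x - c⟫ := ⟨_, rfl⟩
  obtain ⟨q, hq⟩ : ∃ q : ℝ, q = ⟪b 1, x - c⟫ := ⟨_, rfl⟩
  obtain ⟨p', hp'⟩ : ∃ p : ℝ, p = ⟪b 0, x' - c⟫ := ⟨_, rfl⟩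
  obtain ⟨q', hq'⟩ : ∃ q : ℝ, q = ⟪b 1, x' - c⟫ := ⟨_, rfl⟩
  rw [← hp, ← hq, ← hp', ← hq'] at h1
  obtain ⟨θ, e1, e2⟩ : ∃ θ : ℝ, Real.cos θ * p - Real.sin θ * q = p' ∧
      Real.sin θ * p + Real.cos θ * q = q' := by
    rcases eq_or_ne (p ^ 2 + q ^ 2) 0 with h0 | h0
    · have a1 : p = 0 := by nlinarith [sq_nonneg p, sq_nonneg q]
      have a2 : q = 0 := by nlinarith [sq_nonneg p, sq_nonneg q]
      rw [h0] at h1
      have a3 : p' = 0 := by nlinarith [sq_nonneg p', sq_nonneg q']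
      have a4 : q' = 0 := by nlinarith [sq_nonneg p', sq_nonneg q']
      refine ⟨0, ?_, ?_⟩
      · rw [a1, a2, a3]; ring
      · rw [a1, a2, a4]; ring
    · have h3 : ((p * p' + q * q') / (p ^ 2 + q ^ 2)) ^ 2 +
          ((p * q' - q * p') / (p ^ 2 + q ^ 2)) ^ 2 = 1 := by
        rw [div_pow, div_pow, ← add_div, div_eq_one_iff_eq (pow_ne_zero 2 h0)]
        have : (p * p' + q * q') ^ 2 + (p * q' - q * p') ^ 2 =
            (p ^ 2 + q ^ 2) * (p' ^ 2 + q' ^ 2) := by ring
        rw [this, ← h1]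
        ring
      obtain ⟨θ, c1, c2⟩ := ra_angle h3
      refine ⟨θ, ?_, ?_⟩
      · rw [c1, c2]
        field_simp
        ring
      · rw [c1, c2]
        field_simp
        ring
  refine ⟨θ, ?_⟩
  unfold rot
  rw [← hp, ← hq, e1, e2, hp', hq', h2]
  exact (ra_expand c b x').symm

private theorem ra_trans (c : E) (b : OrthonormalBasis (Fin 3) ℝ E) (t : ℝ) (x : E) :
    rad2 c b (x + t • b 2) = rad2 c b x ∧ ⟪b 2, x + t • b 2 - c⟫ = ⟪b 2, x - c⟫ + t := by
  have h0 : ⟪b 0, b 2⟫ = (0 : ℝ) := b.orthonormal.2 (by decide)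
  have h1 : ⟪b 1, b 2⟫ = (0 : ℝ) := b.orthonormal.2 (by decide)
  have h2 : ⟪b 2, b 2⟫ = (1 : ℝ) := by
    rw [real_inner_self_eq_norm_sq, b.orthonormal.1]
    norm_num
  have e : x + t • b 2 - c = (x - c) + t • b 2 := by abel
  constructor
  · unfold rad2
    rw [e, inner_add_right, inner_add_right, real_inner_smul_right, real_inner_smul_right, h0, h1,
      mul_zero, add_zero, add_zero]
  · rw [e, inner_add_right, real_inner_smul_right, h2, mul_one]

theorem radial_congr {K : Bool → Set P2} {ι : Bool → P2 →ᵃⁱ[ℝ] E} {c : E}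
    {b : OrthonormalBasis (Fin 3) ℝ E} (hK : ∀ i, IsCompact (K i))
    (hreg : ∀ i, closure (interior (K i)) = K i) (hperp : ∀ i y z, ⟪ι i y - ι i z, b 2⟫ = 0)
    (hrot : ∀ i, ∀ θ : ℝ, ∀ x ∈ ι i '' K i, rot c b θ x ∈ ι i '' K i)
    (hmeas : ∀ B : Set ℝ, MeasurableSet B →
      volume {y | y ∈ interior (K false) ∧ rad2 c b (ι false y) ∈ B} =
        volume {y | y ∈ interior (K true) ∧ rad2 c b (ι true y) ∈ B}) :
    ∃ M : E ≃ᵢ E, M '' (ι false '' K false) = ι true '' K true := by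
  obtain ⟨h, hh⟩ : ∃ h : Bool → ℝ, ∀ i y, ⟪b 2, ι i y - c⟫ = h i := by
    refine ⟨fun i => ⟪b 2, ι i 0 - c⟫, fun i y => ?_⟩
    have h1 := hperp i y 0
    have h2 : ι i y - c = (ι i y - ι i 0) + (ι i 0 - c) := by abel
    rw [h2, inner_add_right, real_inner_comm, h1, zero_add]
  have hb2 : b 2 ≠ 0 := by
    intro h0
    have h1 := b.orthonormal.1 2
    rw [h0, norm_zero] at h1
    exact zero_ne_one h1
  have hpl : ∀ i x, ⟪b 2, x - c⟫ = h i → ∃ y, ι i y = x := by
    intro i x hx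
    refine ra_plane (ι i) hb2 (hperp i) ?_
    have h2 : x - ι i 0 = (x - c) - (ι i 0 - c) := by abel
    rw [h2, real_inner_comm, inner_sub_right, hx, hh, sub_self]
  have hcont : ∀ i, Continuous fun y => rad2 c b (ι i y) := by
    intro i
    have : Continuous (ι i) := (ι i).continuous
    unfold rad2
    fun_prop
  obtain ⟨S, hS⟩ : ∃ S : Bool → Set ℝ, ∀ i, S i = (fun y => rad2 c b (ι i y)) '' K i :=
    ⟨fun i => (fun y => rad2 c b (ι i y)) '' K i, fun i => rfl⟩
  have hSc : ∀ i, IsClosed (S i) := by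
    intro i
    rw [hS]
    exact ((hK i).image (hcont i)).isClosed
  have hP1 : ∀ i y, rad2 c b (ι i y) ∈ S i → y ∈ K i := by
    intro i y hy
    rw [hS] at hy
    obtain ⟨z, hz, he⟩ := hy
    have he' : rad2 c b (ι i z) = rad2 c b (ι i y) := he
    obtain ⟨θ, hθ⟩ := ra_rot he' ((hh i z).trans (hh i y).symm)
    have h1 := hrot i θ (ι i z) ⟨z, hz, rfl⟩
    rw [hθ] at h1
    obtain ⟨w, hw, hwe⟩ := h1
    rw [← (ι i).injective hwe]
    exact hw
  have hsub : ∀ i j, volume {y | y ∈ interior (K i) ∧ rad2 c b (ι i y) ∈ (S j)ᶜ} = 0 → S i ⊆ S j := by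
    intro i j hv
    have hopen : IsOpen {y | y ∈ interior (K i) ∧ rad2 c b (ι i y) ∈ (S j)ᶜ} :=
      isOpen_interior.inter ((hSc j).isOpen_compl.preimage (hcont i))
    have hemp := hopen.measure_eq_zero_iff (μ := volume) |>.mp hv
    have h1 : interior (K i) ⊆ (fun y => rad2 c b (ι i y)) ⁻¹' (S j) := by
      intro y hy
      by_contra h2
      have h3 : y ∈ {y | y ∈ interior (K i) ∧ rad2 c b (ι i y) ∈ (S j)ᶜ} := ⟨hy, h2⟩
      rw [hemp] at h3
      exact h3
    have h2 : K i ⊆ (fun y => rad2 c b (ι i y)) ⁻¹' (S j) := by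
      rw [← hreg i]
      exact closure_minimal h1 ((hSc j).preimage (hcont i))
    rw [hS i]
    rintro _ ⟨y, hy, rfl⟩
    exact h2 hy
  have hempty : ∀ i, {y | y ∈ interior (K i) ∧ rad2 c b (ι i y) ∈ (S i)ᶜ} = ∅ := by
    intro i
    rw [Set.eq_empty_iff_forall_notMem]
    rintro y ⟨hy, h2⟩
    apply h2
    rw [hS i]
    exact ⟨y, interior_subset hy, rfl⟩
  have hft : S false ⊆ S true := by
    apply hsub
    rw [hmeas _ (hSc true).isOpen_compl.measurableSet, hempty, measure_empty]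
  have htf : S true ⊆ S false := by
    apply hsub
    rw [← hmeas _ (hSc false).isOpen_compl.measurableSet, hempty, measure_empty]
  refine ⟨IsometryEquiv.addRight ((h true - h false) • b 2), ?_⟩
  apply Set.Subset.antisymm
  · rintro _ ⟨_, ⟨y, hy, rfl⟩, rfl⟩
    show ι false y + (h true - h false) • b 2 ∈ ι true '' K true
    obtain ⟨t1, t2⟩ := ra_trans c b (h true - h false) (ι false y)
    obtain ⟨z, hz⟩ := hpl true (ι false y + (h true - h false) • b 2) (by rw [t2, hh]; ring)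
    refine ⟨z, hP1 true z ?_, hz⟩
    rw [hz, t1]
    apply hft
    rw [hS]
    exact ⟨y, hy, rfl⟩
  · rintro _ ⟨y, hy, rfl⟩
    obtain ⟨t1, t2⟩ := ra_trans c b (-(h true - h false)) (ι true y)
    obtain ⟨z, hz⟩ := hpl false (ι true y + (-(h true - h false)) • b 2) (by rw [t2, hh]; ring)
    refine ⟨ι false z, ⟨z, hP1 false z ?_, rfl⟩, ?_⟩
    · rw [hz, t1]
      apply htf
      rw [hS]
      exact ⟨y, hy, rfl⟩
    · show ι false z + (h true - h false) • b 2 = ι true y
      rw [hz]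
      module

end Pool.Agent.Work.MP_d70a14_gt

end
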