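import Pool.Agent.Work.MP_d70a14_gt.S.Axis
import Pool.Agent.Work.MP_d70a14_gt.S.PlanePerp
import Pool.Agent.Work.MP_d70a14_gt.S.Radial
import Pool.Agent.Work.MP_d70a14_gt.S.Dist
import Pool.Agent.Work.MP_d70a14_gt.C.Sweep

/-! # Symmetric optical fibers have congruent ends (M)

`axis` with `S = V` gives `c, b`; `F i = ι i '' K i` is compact, `frontier V` is closed and `g '' frontier V = frontier V` (homeomorphism): all are invariant under all `rot c b θ`.
If both interiors `interior (K i)` are nonempty: `plane_perp` for both ends, `radial_dist`, `radial_congr`.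
If one interior is empty, say of `K i`: `fluxI` with `I = indicator (‖v‖ < 1) 1` (and `m` from `planeNormal`): one side is `0`, so the other: `volume (interior (K (!i))) = 0` because
`∫⁻ u in ball, |⟪u, m⟫| > 0`; an open null set is empty; then `K i = closure ∅ = ∅` for both, and `M = 1`. -/

open MeasureTheory Set Metric Filter Topology
open scoped RealInnerProductSpace ContDiff ENNReal

noncomputable section

namespace Pool.Agent.Work.MP_d70a14_gt

private theorem sf_pos {m : E} (hm : ‖m‖ = 1) :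
    ∫⁻ u : E in ball (0 : E) 1, ENNReal.ofReal |⟪u, m⟫| ≠ 0 := by
  intro h
  have hc : Continuous fun u : E => ENNReal.ofReal |⟪u, m⟫| :=
    ENNReal.continuous_ofReal.comp (by fun_prop)
  have h1 := (lintegral_eq_zero_iff hc.measurable).1 h
  have h2 : ∀ᵐ u : E, u ∈ ball (0 : E) 1 → ENNReal.ofReal |⟪u, m⟫| = 0 :=
    (ae_restrict_iff' measurableSet_ball).1 h1
  have h3 : volume {u : E | u ∈ ball (0 : E) 1 ∧ 0 < |⟪u, m⟫|} = 0 := by
    refine measure_mono_null ?_ (ae_iff.1 h2)
    rintro u ⟨hu1, hu2⟩ hu3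
    have h4 := hu3 hu1
    rw [ENNReal.ofReal_eq_zero] at h4
    linarith
  have ho : IsOpen {u : E | u ∈ ball (0 : E) 1 ∧ 0 < |⟪u, m⟫|} := by
    have hc2 : Continuous fun u : E => |⟪u, m⟫| := by fun_prop
    exact isOpen_ball.inter (isOpen_lt (f := fun _ : E => (0 : ℝ)) continuous_const hc2)
  have h4 := (ho.measure_eq_zero_iff volume).1 h3
  have h5 : ((1 / 2 : ℝ) • m) ∈ {u : E | u ∈ ball (0 : E) 1 ∧ 0 < |⟪u, m⟫|} := by
    constructor
    · rw [mem_ball, dist_zero_right, norm_smul, hm, mul_one, Real.norm_eq_abs]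
      norm_num
    · rw [real_inner_smul_left, real_inner_self_eq_norm_sq, hm]
      norm_num
  rw [h4] at h5
  exact h5

private def sfI (q : E × E) : ℝ≥0∞ := if ‖q.2‖ < 1 then 1 else 0

private theorem sfI_meas : Measurable sfI := by
  unfold sfI
  refine Measurable.ite (measurableSet_lt ?_ measurable_const) measurable_const measurable_const
  exact measurable_snd.norm

private theorem sf_empty {K : Set P2} {a : P2 →ᵃⁱ[ℝ] E} {m : E} (hm : ‖m‖ = 1)
    (h : ∫⁻ u : E, ENNReal.ofReal |⟪u, m⟫| * ∫⁻ y in interior K, sfI (a y, u) = 0) :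
    interior K = ∅ := by
  have h1 : ∫⁻ u : E in ball (0 : E) 1, ENNReal.ofReal |⟪u, m⟫| * volume (interior K) ≤
      ∫⁻ u : E, ENNReal.ofReal |⟪u, m⟫| * ∫⁻ y in interior K, sfI (a y, u) := by
    calc ∫⁻ u : E in ball (0 : E) 1, ENNReal.ofReal |⟪u, m⟫| * volume (interior K)
        = ∫⁻ u : E in ball (0 : E) 1,
            ENNReal.ofReal |⟪u, m⟫| * ∫⁻ y in interior K, sfI (a y, u) := by
          refine setLIntegral_congr_fun measurableSet_ball fun u hu => ?_
          have h2 : ∀ y : P2, sfI (a y, u) = 1 := by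
            intro y
            unfold sfI
            rw [mem_ball, dist_zero_right] at hu
            exact if_pos hu
          simp only [h2]
          rw [setLIntegral_one]
      _ ≤ _ := setLIntegral_le_lintegral _ _
  rw [h] at h1
  have hc : Continuous fun u : E => ENNReal.ofReal |⟪u, m⟫| :=
    ENNReal.continuous_ofReal.comp (by fun_prop)
  rw [lintegral_mul_const _ hc.measurable] at h1
  have h2 := nonpos_iff_eq_zero.1 h1
  have h3 := (mul_eq_zero.1 h2).resolve_left (sf_pos hm)
  exact (isOpen_interior.measure_eq_zero_iff volume).1 h3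

private theorem sf_zero {K : Set P2} {a : P2 →ᵃⁱ[ℝ] E} {m : E} (h : interior K = ∅) :
    ∫⁻ u : E, ENNReal.ofReal |⟪u, m⟫| * ∫⁻ y in interior K, sfI (a y, u) = 0 := by
  rw [h]
  simp

private theorem sf_both {V : Set E} {K : Bool → Set P2} {ι : Bool → P2 →ᵃⁱ[ℝ] E}
    (ho : OpticalFiber V K ι) {i : Bool} (hi : interior (K i) = ∅) (j : Bool) :
    interior (K j) = ∅ := by
  choose m hm hpl using fun i => planeNormal (ι i)
  have hf := fluxI ho (I := sfI) sfI_meas (fun k x v t y w hF => by
    unfold sfI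
    rw [hF.norm]) (fun x v => by
    unfold sfI
    rw [norm_neg]) hm hpl
  cases i <;> cases j
  · exact hi
  · refine sf_empty (a := ι true) (hm true) ?_
    rw [← hf]
    exact sf_zero hi
  · refine sf_empty (a := ι false) (hm false) ?_
    rw [hf]
    exact sf_zero hi
  · exact hi

theorem symmetric_congr {V : Set E} {K : Bool → Set P2} {ι : Bool → P2 →ᵃⁱ[ℝ] E}
    (ho : OpticalFiber V K ι) {g : E ≃ᵢ E} (hg : ∀ n : ℕ, 0 < n → g ^ n ≠ 1) (hgV : g '' V = V)
    (hgK : ∀ i, g '' (ι i '' K i) = ι i '' K i) :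
    ∃ M : E ≃ᵢ E, M '' (ι false '' K false) = ι true '' K true := by
  have hb := ho.toBody
  obtain ⟨c, b, hrot⟩ := axis hg hb.isConnected.nonempty hb.isBounded hgV
  have hrotK : ∀ i, ∀ θ : ℝ, ∀ x ∈ ι i '' K i, rot c b θ x ∈ ι i '' K i := fun i =>
    hrot _ ((hb.compact i).image (ι i).continuous).isClosed (hgK i)
  have hrotV : ∀ θ : ℝ, ∀ x ∈ frontier V, rot c b θ x ∈ frontier V := by
    refine hrot _ isClosed_frontier ?_
    have h1 := g.toHomeomorph.image_frontier V
    have h2 : (g.toHomeomorph '' V) = V := hgV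
    rw [h2] at h1
    exact h1
  by_cases hK : ∀ i, (interior (K i)).Nonempty
  · have hperp : ∀ i y z, ⟪ι i y - ι i z, b 2⟫ = 0 := fun i => plane_perp (hK i) (hrotK i)
    exact radial_congr hb.compact hb.regular hperp hrotK
      (fun B hB => radial_dist ho hperp hrotV hB)
  · push Not at hK
    obtain ⟨i, hi⟩ := hK
    have h1 : ∀ j, K j = ∅ := by
      intro j
      rw [← hb.regular j, sf_both ho hi j, closure_empty]
    refine ⟨IsometryEquiv.refl E, ?_⟩
    rw [h1 false, h1 true]
    simp

end Pool.Agent.Work.MP_d70a14_gt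

end
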