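import Pool.Agent.Work.MP_d70a14_gt.Defs

/-! # The axis of an isometry of infinite order (M-L)

(1) `g x = A x + w` with `A` linear isometric (`IsometryEquiv.toRealAffineIsometryEquiv`).  `E = ker (A - 1) ⊕ range (A - 1)` (orthogonal sum, `A` is orthogonal).  Let `w = w₀ + w₁`
accordingly.  For `x ∈ S` the orbit `g^n x` is in the bounded set `S`, and its component in `ker (A - 1)` is `x₀ + n w₀`: so `w₀ = 0`, `w = A(-c) + c`-type:
`g` has a fixed point `c`.
(2) `A` has infinite order, so has `B = A^2`, and `det B = 1`.  A rotation of the three-dimensional space has the eigenvalue `1` (`det (B - 1) = 0`): unit vector `e`; `B` maps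
`e^⊥` to itself and is a rotation there by an angle `α` (2x2 orthogonal matrix of determinant `1`): orthonormal basis `b` with `b 2 = e`, and
`g^[2] x = rot c b α x`, `g^[2n] x = rot c b (n α) x`.  `α / 2π` is irrational (otherwise `B` has finite order).
(3) the multiples of an irrational rotation are dense in the circle (`AddCircle` / `dense_addSubgroupClosure_pair_iff`, or `AddSubgroup.dense_or_cyclic` for `{2πm + nα}`;
with `n ≥ 0` or all integers: `g⁻¹` also preserves `F`): for every `θ` there are `n_j` with `rot c b (n_j α) x → rot c b θ x`; `F` is closed and invariant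
under `g` and `g⁻¹` (`g '' F = F`). -/

open MeasureTheory Set Metric Filter Topology
open scoped RealInnerProductSpace ContDiff ENNReal

noncomputable section

namespace Pool.Agent.Work.MP_d70a14_gt

private theorem axis_c0 (c : E) (b : OrthonormalBasis (Fin 3) ℝ E) (θ : ℝ) (x : E) :
    ⟪b 0, rot c b θ x - c⟫ = Real.cos θ * ⟪b 0, x - c⟫ - Real.sin θ * ⟪b 1, x - c⟫ := by
  have h : rot c b θ x - c = (Real.cos θ * ⟪b 0, x - c⟫ - Real.sin θ * ⟪b 1, x - c⟫) • b 0 +
    (Real.sin θ * ⟪b 0, x - c⟫ + Real.cos θ * ⟪b 1, x - c⟫) • b 1 + ⟪b 2, x - c⟫ • b 2 := by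
    unfold rot
    abel
  rw [h, inner_add_right, inner_add_right, inner_smul_right, inner_smul_right, inner_smul_right,
    b.inner_eq_ite, b.inner_eq_ite, b.inner_eq_ite]
  simp

private theorem axis_c1 (c : E) (b : OrthonormalBasis (Fin 3) ℝ E) (θ : ℝ) (x : E) :
    ⟪b 1, rot c b θ x - c⟫ = Real.sin θ * ⟪b 0, x - c⟫ + Real.cos θ * ⟪b 1, x - c⟫ := by
  have h : rot c b θ x - c = (Real.cos θ * ⟪b 0, x - c⟫ - Real.sin θ * ⟪b 1, x - c⟫) • b 0 +
    (Real.sin θ * ⟪b 0, x - c⟫ + Real.cos θ * ⟪b 1, x - c⟫) • b 1 + ⟪b 2, x - c⟫ • b 2 := by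
    unfold rot
    abel
  rw [h, inner_add_right, inner_add_right, inner_smul_right, inner_smul_right, inner_smul_right,
    b.inner_eq_ite, b.inner_eq_ite, b.inner_eq_ite]
  simp

private theorem axis_c2 (c : E) (b : OrthonormalBasis (Fin 3) ℝ E) (θ : ℝ) (x : E) :
    ⟪b 2, rot c b θ x - c⟫ = ⟪b 2, x - c⟫ := by
  have h : rot c b θ x - c = (Real.cos θ * ⟪b 0, x - c⟫ - Real.sin θ * ⟪b 1, x - c⟫) • b 0 +
    (Real.sin θ * ⟪b 0, x - c⟫ + Real.cos θ * ⟪b 1, x - c⟫) • b 1 + ⟪b 2, x - c⟫ • b 2 := by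
    unfold rot
    abel
  rw [h, inner_add_right, inner_add_right, inner_smul_right, inner_smul_right, inner_smul_right,
    b.inner_eq_ite, b.inner_eq_ite, b.inner_eq_ite]
  simp

private theorem axis_def (c : E) (b : OrthonormalBasis (Fin 3) ℝ E) (θ : ℝ) (x : E) :
    rot c b θ x = c + (Real.cos θ * ⟪b 0, x - c⟫ - Real.sin θ * ⟪b 1, x - c⟫) • b 0 +
    (Real.sin θ * ⟪b 0, x - c⟫ + Real.cos θ * ⟪b 1, x - c⟫) • b 1 + ⟪b 2, x - c⟫ • b 2 := rfl

private theorem axis_add (c : E) (b : OrthonormalBasis (Fin 3) ℝ E) (s t : ℝ) (x : E) :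
    rot c b s (rot c b t x) = rot c b (s + t) x := by
  rw [axis_def c b s (rot c b t x), axis_def c b (s + t) x, axis_c0, axis_c1, axis_c2, Real.cos_add,
    Real.sin_add]
  module

private theorem axis_expand (b : OrthonormalBasis (Fin 3) ℝ E) (y : E) :
    ⟪b 0, y⟫ • b 0 + ⟪b 1, y⟫ • b 1 + ⟪b 2, y⟫ • b 2 = y := by
  have h := b.sum_repr' y
  rw [Fin.sum_univ_three] at h
  exact h

private theorem axis_zero (c : E) (b : OrthonormalBasis (Fin 3) ℝ E) (x : E) :
    rot c b 0 x = x := by
  unfold rot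
  rw [Real.cos_zero, Real.sin_zero, one_mul, zero_mul, zero_mul, one_mul, sub_zero, zero_add,
    add_assoc, add_assoc, ← add_assoc (⟪b 0, x - c⟫ • b 0), axis_expand]
  abel

private theorem axis_two_pi (c : E) (b : OrthonormalBasis (Fin 3) ℝ E) (x : E) :
    rot c b (2 * Real.pi) x = x := by
  unfold rot
  rw [Real.cos_two_pi, Real.sin_two_pi, one_mul, zero_mul, zero_mul, one_mul, sub_zero, zero_add,
    add_assoc, add_assoc, ← add_assoc (⟪b 0, x - c⟫ • b 0), axis_expand]
  abel

private theorem axis_cont (c : E) (b : OrthonormalBasis (Fin 3) ℝ E) (x : E) :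
    Continuous fun θ => rot c b θ x := by
  unfold rot
  fun_prop

/-- the matrix of a linear isometry -/
private theorem axis_mat (e : OrthonormalBasis (Fin 3) ℝ E) (L : E ≃ₗᵢ[ℝ] E) :
    (LinearMap.toMatrix e.toBasis e.toBasis (L.toLinearEquiv : E →ₗ[ℝ] E)).transpose *
      LinearMap.toMatrix e.toBasis e.toBasis (L.toLinearEquiv : E →ₗ[ℝ] E) = 1 := by
  ext i j
  rw [Matrix.mul_apply, Matrix.one_apply]
  have h1 : ∀ k l, LinearMap.toMatrix e.toBasis e.toBasis (L.toLinearEquiv : E →ₗ[ℝ] E) k l =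
      ⟪e k, L (e l)⟫ := by
    intro k l
    rw [LinearMap.toMatrix_apply, OrthonormalBasis.coe_toBasis_repr_apply, OrthonormalBasis.repr_apply_apply,
      OrthonormalBasis.coe_toBasis]
    rfl
  simp only [Matrix.transpose_apply, h1]
  have h2 := e.sum_inner_mul_inner (L (e i)) (L (e j))
  rw [L.inner_map_map, e.inner_eq_ite] at h2
  rw [← h2]
  refine Finset.sum_congr rfl fun k _ => ?_
  rw [real_inner_comm]

private theorem axis_det (L : E ≃ₗᵢ[ℝ] E) :
    LinearMap.det (L.toLinearEquiv : E →ₗ[ℝ] E) * LinearMap.det (L.toLinearEquiv : E →ₗ[ℝ] E) = 1 := by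
  have h := congrArg Matrix.det (axis_mat (EuclideanSpace.basisFun (Fin 3) ℝ) L)
  rw [Matrix.det_mul, Matrix.det_transpose, Matrix.det_one, LinearMap.det_toMatrix] at h
  exact h

private theorem axis_fixed (B : E ≃ₗᵢ[ℝ] E) (hB : LinearMap.det (B.toLinearEquiv : E →ₗ[ℝ] E) = 1) :
    ∃ e : E, ‖e‖ = 1 ∧ B e = e := by
  obtain ⟨M, hM⟩ : ∃ M, M = LinearMap.toMatrix (EuclideanSpace.basisFun (Fin 3) ℝ).toBasis
    (EuclideanSpace.basisFun (Fin 3) ℝ).toBasis (B.toLinearEquiv : E →ₗ[ℝ] E) := ⟨_, rfl⟩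
  have h1 : M.transpose * M = 1 := by
    rw [hM]
    exact axis_mat _ B
  have h2 : M.det = 1 := by
    rw [hM, LinearMap.det_toMatrix, hB]
  have h3 : M * M.transpose = 1 := mul_eq_one_comm.1 h1
  have h4 : (M - 1).det = 0 := by
    have h5 : M - 1 = M * (1 - M).transpose := by
      rw [Matrix.transpose_sub, Matrix.transpose_one, mul_sub, mul_one, h3]
    have h6 : (M - 1).det = (1 - M).det := by
      rw [h5, Matrix.det_mul, h2, one_mul, Matrix.det_transpose]
    have h7 : (1 - M).det = - (M - 1).det := by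
      rw [← neg_sub M 1, Matrix.det_neg, Fintype.card_fin]
      ring
    rw [h7] at h6
    linarith
  have h5 : LinearMap.det ((B.toLinearEquiv : E →ₗ[ℝ] E) - LinearMap.id) = 0 := by
    rw [← LinearMap.det_toMatrix (EuclideanSpace.basisFun (Fin 3) ℝ).toBasis, map_sub, ← hM,
      LinearMap.toMatrix_id]
    exact h4
  obtain ⟨v, hv, hv0⟩ := (Submodule.ne_bot_iff _).1 (LinearMap.bot_lt_ker_of_det_eq_zero h5).ne'
  have hv1 : B v = v := by
    have h6 : (B.toLinearEquiv : E →ₗ[ℝ] E) v - v = 0 := hv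
    exact sub_eq_zero.1 h6
  refine ⟨‖v‖⁻¹ • v, ?_, ?_⟩
  · rw [norm_smul, norm_inv, norm_norm, inv_mul_cancel₀ (norm_ne_zero_iff.2 hv0)]
  · rw [map_smul, hv1]

/-- a rotation about an axis -/
private theorem axis_rot (B : E ≃ₗᵢ[ℝ] E) (hB : LinearMap.det (B.toLinearEquiv : E →ₗ[ℝ] E) = 1) :
    ∃ (b : OrthonormalBasis (Fin 3) ℝ E) (α : ℝ), ∀ c x, rot c b α x = c + B (x - c) := by
  obtain ⟨e, he, hBe⟩ := axis_fixed B hB
  have hor : Orthonormal ℝ (Set.restrict {(2 : Fin 3)} fun _ => e) := by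
    constructor
    · intro i
      exact he
    · intro i j hij
      exact absurd (Subtype.ext (i.2.trans j.2.symm)) hij
  obtain ⟨b, hb⟩ := hor.exists_orthonormalBasis_extension_of_card_eq (by simp)
  have hb2 : b 2 = e := hb 2 rfl
  have hB2 : B (b 2) = b 2 := by rw [hb2, hBe]
  have hin : ∀ i j, ⟪B (b i), B (b j)⟫ = if i = j then (1 : ℝ) else 0 := fun i j => by
    rw [B.inner_map_map, b.inner_eq_ite]
  have h20 : ⟪b 2, B (b 0)⟫ = 0 := by
    have := hin 2 0
    rw [hB2] at this
    simpa using this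
  have h21 : ⟪b 2, B (b 1)⟫ = 0 := by
    have := hin 2 1
    rw [hB2] at this
    simpa using this
  obtain ⟨p, hp⟩ : ∃ p, p = ⟪b 0, B (b 0)⟫ := ⟨_, rfl⟩
  obtain ⟨q, hq⟩ : ∃ q, q = ⟪b 1, B (b 0)⟫ := ⟨_, rfl⟩
  obtain ⟨r, hr⟩ : ∃ r, r = ⟪b 0, B (b 1)⟫ := ⟨_, rfl⟩
  obtain ⟨s, hs⟩ : ∃ s, s = ⟪b 1, B (b 1)⟫ := ⟨_, rfl⟩
  have e0 : B (b 0) = p • b 0 + q • b 1 := by
    rw [← axis_expand b (B (b 0)), ← hp, ← hq, h20, zero_smul, add_zero]
  have e1 : B (b 1) = r • b 0 + s • b 1 := by
    rw [← axis_expand b (B (b 1)), ← hr, ← hs, h21, zero_smul, add_zero]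
  have hexp : ∀ x y z w : ℝ, ⟪x • b 0 + y • b 1, z • b 0 + w • b 1⟫ = x * z + y * w := by
    intro x y z w
    rw [inner_add_left, inner_add_right, inner_add_right]
    simp only [inner_smul_left, inner_smul_right, b.inner_eq_ite]
    simp
    ring
  have r1 : p * p + q * q = 1 := by
    have := hin 0 0
    rw [e0, hexp] at this
    simpa using this
  have r2 : r * r + s * s = 1 := by
    have := hin 1 1
    rw [e1, hexp] at this
    simpa using this
  have r3 : p * r + q * s = 0 := by
    have := hin 0 1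
    rw [e0, e1, hexp] at this
    simpa using this
  have r4 : p * s - r * q = 1 := by
    rw [← hB, ← LinearMap.det_toMatrix b.toBasis, Matrix.det_fin_three]
    have h1 : ∀ k l, LinearMap.toMatrix b.toBasis b.toBasis (B.toLinearEquiv : E →ₗ[ℝ] E) k l =
        ⟪b k, B (b l)⟫ := by
      intro k l
      rw [LinearMap.toMatrix_apply, OrthonormalBasis.coe_toBasis_repr_apply,
        OrthonormalBasis.repr_apply_apply, OrthonormalBasis.coe_toBasis]
      rfl
    simp only [h1, hB2, h20, h21, ← hp, ← hq, ← hr, ← hs, b.inner_eq_ite]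
    simp
  have hs' : s = p := by
    have h1 : s * (p * p + q * q) = p * (p * s - r * q) + q * (p * r + q * s) := by ring
    rw [r1, r4, r3] at h1
    linarith
  have hr' : r = -q := by
    have h1 : r * (p * p + q * q) = p * (p * r + q * s) - q * (p * s - r * q) := by ring
    rw [r1, r4, r3] at h1
    linarith
  obtain ⟨α, hα1, hα2⟩ : ∃ α : ℝ, Real.cos α = p ∧ Real.sin α = q := by
    have h1 : ‖(⟨p, q⟩ : ℂ)‖ = 1 := by
      rw [Complex.norm_def, Complex.normSq_mk, r1, Real.sqrt_one]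
    refine ⟨Complex.arg ⟨p, q⟩, ?_, ?_⟩
    · rw [Complex.cos_arg (by
        intro h
        rw [h, norm_zero] at h1
        exact zero_ne_one h1), h1, div_one]
    · rw [Complex.sin_arg, h1, div_one]
  refine ⟨b, α, fun c x => ?_⟩
  have h1 : B (x - c) = ⟪b 0, x - c⟫ • B (b 0) + ⟪b 1, x - c⟫ • B (b 1) + ⟪b 2, x - c⟫ • B (b 2) := by
    conv_lhs => rw [← axis_expand b (x - c)]
    rw [map_add, map_add, map_smul, map_smul, map_smul]
  rw [h1, e0, e1, hB2, hs', hr']
  unfold rot
  rw [hα1, hα2]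
  module

theorem axis {g : E ≃ᵢ E} (hg : ∀ n : ℕ, 0 < n → g ^ n ≠ 1) {S : Set E} (hS : S.Nonempty)
    (hb : Bornology.IsBounded S) (hgS : g '' S = S) :
    ∃ (c : E) (b : OrthonormalBasis (Fin 3) ℝ E), ∀ F : Set E, IsClosed F → g '' F = F →
      ∀ θ : ℝ, ∀ x ∈ F, rot c b θ x ∈ F := by
  obtain ⟨A, hA⟩ : ∃ A : E ≃ᵃⁱ[ℝ] E, A = g.toRealAffineIsometryEquiv := ⟨_, rfl⟩
  have hAg : ∀ x, A x = g x := fun x => by rw [hA]; rfl
  -- a fixed point
  obtain ⟨c, hc⟩ : ∃ c : E, g c = c := by
    obtain ⟨x0, hx0⟩ := hS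
    obtain ⟨R, hR⟩ := hb.exists_norm_le
    have hit : ∀ n : ℕ, g^[n] x0 ∈ S := by
      intro n
      induction n with
      | zero => exact hx0
      | succ n ih =>
        rw [Function.iterate_succ_apply', ← hgS]
        exact mem_image_of_mem g ih
    obtain ⟨a, ha⟩ : ∃ a : ℕ → E, a = fun N : ℕ => ((N : ℝ) + 1)⁻¹ • ∑ n ∈ Finset.range (N + 1), g^[n] x0 :=
      ⟨_, rfl⟩
    have haR : ∀ N, a N ∈ closedBall (0 : E) R := by
      intro N
      rw [mem_closedBall, dist_zero_right, ha]
      have h1 : ‖∑ n ∈ Finset.range (N + 1), g^[n] x0‖ ≤ ((N : ℝ) + 1) * R := by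
        refine (norm_sum_le _ _).trans ((Finset.sum_le_card_nsmul _ _ R fun n _ => hR _ (hit n)).trans ?_)
        rw [Finset.card_range, nsmul_eq_mul]
        push_cast
        exact le_rfl
      have h0 : (0 : ℝ) < (N : ℝ) + 1 := by positivity
      show ‖((N : ℝ) + 1)⁻¹ • ∑ n ∈ Finset.range (N + 1), g^[n] x0‖ ≤ R
      rw [norm_smul, norm_inv, Real.norm_of_nonneg h0.le, inv_mul_le_iff₀ h0]
      exact h1
    have hga : ∀ N, g (a N) - a N = ((N : ℝ) + 1)⁻¹ • (g^[N + 1] x0 - x0) := by
      intro N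
      have h0 : ((N : ℝ) + 1) ≠ 0 := by positivity
      have hlin : ∀ x, g x = A.linearIsometryEquiv x + g 0 := by
        intro x
        have h1 := A.map_vadd 0 x
        simp only [vadd_eq_add, add_zero] at h1
        rw [hAg, hAg] at h1
        exact h1
      have h2 : g (a N) = ((N : ℝ) + 1)⁻¹ • ∑ n ∈ Finset.range (N + 1), g^[n + 1] x0 := by
        have h3 : ∀ n ∈ Finset.range (N + 1), g^[n + 1] x0 = A.linearIsometryEquiv (g^[n] x0) + g 0 := by
          intro n _
          rw [Function.iterate_succ_apply', hlin]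
        rw [hlin, ha, Finset.sum_congr rfl h3, Finset.sum_add_distrib, Finset.sum_const,
          Finset.card_range, map_smul, map_sum, smul_add, ← Nat.cast_smul_eq_nsmul ℝ, smul_smul]
        push_cast
        rw [inv_mul_cancel₀ h0, one_smul]
      rw [h2, ha]
      show ((N : ℝ) + 1)⁻¹ • ∑ n ∈ Finset.range (N + 1), g^[n + 1] x0 -
        ((N : ℝ) + 1)⁻¹ • ∑ n ∈ Finset.range (N + 1), g^[n] x0 = _
      rw [← smul_sub, ← Finset.sum_sub_distrib, Finset.sum_range_sub (fun n => g^[n] x0)]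
      rfl
    obtain ⟨c, -, φ, hφ, hlim⟩ := (isCompact_closedBall (0 : E) R).tendsto_subseq haR
    refine ⟨c, ?_⟩
    have h1 : Tendsto (fun N => g (a (φ N)) - a (φ N)) atTop (𝓝 (g c - c)) :=
      ((g.continuous.tendsto c).comp hlim).sub hlim
    have h2 : Tendsto (fun N => g (a (φ N)) - a (φ N)) atTop (𝓝 0) := by
      have h3 : Tendsto (fun N => g (a N) - a N) atTop (𝓝 0) := by
        refine squeeze_zero_norm (a := fun N : ℕ => (2 * R) * (1 / ((N : ℝ) + 1))) (fun N => ?_) ?_
        · rw [hga, norm_smul, norm_inv, Real.norm_of_nonneg (by positivity : (0 : ℝ) ≤ (N : ℝ) + 1),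
            mul_comm, one_div]
          refine mul_le_mul_of_nonneg_right ((norm_sub_le _ _).trans ?_) (by positivity)
          have := hR _ (hit (N + 1))
          have := hR _ hx0
          linarith
        · have := tendsto_one_div_add_atTop_nhds_zero_nat (𝕜 := ℝ)
          simpa using this.const_mul (2 * R)
      exact h3.comp hφ.tendsto_atTop
    exact sub_eq_zero.1 (tendsto_nhds_unique h1 h2)
  -- the linear part
  obtain ⟨L, hL⟩ : ∃ L : E ≃ₗᵢ[ℝ] E, ∀ x, g x = c + L (x - c) := by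
    refine ⟨A.linearIsometryEquiv, fun x => ?_⟩
    have h1 := A.map_vsub x c
    simp only [vsub_eq_sub] at h1
    rw [hAg, hAg, hc] at h1
    rw [h1]
    abel
  have hB : LinearMap.det ((L.trans L).toLinearEquiv : E →ₗ[ℝ] E) = 1 := by
    have h1 : ((L.trans L).toLinearEquiv : E →ₗ[ℝ] E) =
        (L.toLinearEquiv : E →ₗ[ℝ] E) ∘ₗ (L.toLinearEquiv : E →ₗ[ℝ] E) := rfl
    rw [h1, LinearMap.det_comp, axis_det]
  obtain ⟨b, α, hα⟩ := axis_rot (L.trans L) hB
  have hgg : ∀ x, g (g x) = rot c b α x := by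
    intro x
    rw [hα, hL x, hL, add_sub_cancel_left]
    rfl
  refine ⟨c, b, fun F hF hgF => ?_⟩
  -- the group generated by `α` and `2 π` is dense
  have hiter : ∀ (n : ℕ) (x : E), g^[2 * n] x = rot c b (n * α) x := by
    intro n
    induction n with
    | zero =>
      intro x
      rw [Nat.cast_zero, zero_mul, axis_zero]
      rfl
    | succ n ih =>
      intro x
      have h1 : 2 * (n + 1) = 2 * n + 1 + 1 := by ring
      rw [h1, Function.iterate_succ_apply, Function.iterate_succ_apply, ih, hgg, axis_add]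
      congr 1
      push_cast
      ring
  have hdense : Dense ((AddSubgroup.closure {α, 2 * Real.pi} : AddSubgroup ℝ) : Set ℝ) := by
    rcases AddSubgroup.dense_or_cyclic (AddSubgroup.closure {α, 2 * Real.pi}) with h | ⟨a, ha⟩
    · exact h
    · exfalso
      have h1 : α ∈ AddSubgroup.closure {a} := by
        rw [← ha]
        exact AddSubgroup.subset_closure (by simp)
      have h2 : 2 * Real.pi ∈ AddSubgroup.closure {a} := by
        rw [← ha]
        exact AddSubgroup.subset_closure (by simp)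
      obtain ⟨m, hm⟩ := AddSubgroup.mem_closure_singleton.1 h1
      obtain ⟨n, hn⟩ := AddSubgroup.mem_closure_singleton.1 h2
      rw [zsmul_eq_mul] at hm hn
      have hn0 : n ≠ 0 := by
        rintro rfl
        rw [Int.cast_zero, zero_mul] at hn
        have := Real.two_pi_pos
        linarith
      have hper : ∀ (k : ℤ) (x : E), rot c b (k * (2 * Real.pi)) x = x := by
        intro k x
        have h3 : ∀ j : ℕ, ∀ x, rot c b (j * (2 * Real.pi)) x = x := by
          intro j
          induction j with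
          | zero =>
            intro x
            rw [Nat.cast_zero, zero_mul, axis_zero]
          | succ j ih =>
            intro x
            have h4 : ((j + 1 : ℕ) : ℝ) * (2 * Real.pi) = j * (2 * Real.pi) + 2 * Real.pi := by
              push_cast
              ring
            rw [h4, ← axis_add, axis_two_pi, ih]
        obtain ⟨j, rfl | rfl⟩ := Int.eq_nat_or_neg k
        · exact_mod_cast h3 j x
        · have h4 := axis_add c b (((-(j : ℤ) : ℤ) : ℝ) * (2 * Real.pi)) (j * (2 * Real.pi)) x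
          rw [h3] at h4
          rw [h4]
          push_cast
          rw [show -(j : ℝ) * (2 * Real.pi) + j * (2 * Real.pi) = 0 by ring, axis_zero]
      have h3 : ((n.natAbs : ℕ) : ℝ) * α = ((n.sign * m : ℤ) : ℝ) * (2 * Real.pi) := by
        have h4 : ((n.natAbs : ℕ) : ℝ) = ((n.sign * n : ℤ) : ℝ) := by
          have h5 : ((n.natAbs : ℕ) : ℤ) = n.sign * n := by
            rw [Int.sign_mul_self_eq_abs, Int.natCast_natAbs]
          rw [← h5, Int.cast_natCast]
        rw [h4, ← hm, ← hn]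
        push_cast
        ring
      refine hg (2 * n.natAbs) (by omega) ?_
      ext1 x
      have h4 : ∀ (k : ℕ) (y : E), (g ^ k) y = g^[k] y := by
        intro k
        induction k with
        | zero =>
          intro y
          rfl
        | succ k ih =>
          intro y
          rw [pow_succ, Function.iterate_succ_apply, ← ih]
          rfl
      rw [h4, hiter, h3, hper]
      rfl
  -- the stabiliser of `F`
  let H : AddSubgroup ℝ :=
    { carrier := {t | ∀ x ∈ F, rot c b t x ∈ F ∧ rot c b (-t) x ∈ F}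
      add_mem' := fun {s t} hs ht x hx => by
        refine ⟨?_, ?_⟩
        · rw [← axis_add]
          exact (hs _ (ht x hx).1).1
        · rw [neg_add, ← axis_add]
          exact (hs _ (ht x hx).2).2
      zero_mem' := fun x hx => by
        rw [neg_zero, axis_zero]
        exact ⟨hx, hx⟩
      neg_mem' := fun {s} hs x hx => by
        rw [neg_neg]
        exact ⟨(hs x hx).2, (hs x hx).1⟩ }
  have hH : AddSubgroup.closure {α, 2 * Real.pi} ≤ H := by
    rw [AddSubgroup.closure_le]
    rintro t (rfl | ht)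
    · intro x hx
      refine ⟨?_, ?_⟩
      · rw [← hgg, ← hgF]
        refine mem_image_of_mem g ?_
        rw [← hgF]
        exact mem_image_of_mem g hx
      · have hx' := hx
        rw [← hgF] at hx'
        obtain ⟨x1, hx1, rfl⟩ := hx'
        rw [← hgF] at hx1
        obtain ⟨x2, hx2, rfl⟩ := hx1
        rw [hgg, axis_add, neg_add_cancel, axis_zero]
        exact hx2
    · have ht' : t = 2 * Real.pi := ht
      intro x hx
      rw [ht', axis_two_pi]
      refine ⟨hx, ?_⟩
      have h1 := axis_add c b (-(2 * Real.pi)) (2 * Real.pi) x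
      rw [axis_two_pi, neg_add_cancel, axis_zero] at h1
      rw [h1]
      exact hx
  intro θ x hx
  have hcl : IsClosed {t : ℝ | rot c b t x ∈ F} := hF.preimage (axis_cont c b x)
  have hsub : ((AddSubgroup.closure {α, 2 * Real.pi} : AddSubgroup ℝ) : Set ℝ) ⊆
      {t : ℝ | rot c b t x ∈ F} := fun t ht => (hH ht x hx).1
  have h1 := hcl.closure_subset_iff.2 hsub
  rw [hdense.closure_eq] at h1
  exact h1 (mem_univ θ)

end Pool.Agent.Work.MP_d70a14_gt

end
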